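import Mathlib
import Pool.Agent.K4H34.ST.Main1
import Pool.Agent.K4H77.SL.Grp

/-!
# Control of the multiples: the pieces

Everything is over the base field `ℚ`.
-/

set_option autoImplicit false
set_option linter.unusedSectionVars false

namespace Pool.Agent.K4H34.NC

open NumberField NumberField.ComplexEmbedding Polynomial Pool.Agent.R389 Pool.Agent.K4H74.ST
  Pool.Agent.K4H77.SL Pool.Agent.H302R2 Pool.Agent.H302R3 Pool.Agent.K4H34.ST
open scoped Pointwise

/-- the elements some multiple of which, by a number prime to `l`, lies in `S` -/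
def satl {V : Type} [AddCommGroup V] (l : ℕ) (hl : l.Prime) (S : AddSubgroup V) :
    AddSubgroup V where
  carrier := {f | ∃ n : ℕ, ¬ l ∣ n ∧ n • f ∈ S}
  zero_mem' := ⟨1, fun h => hl.one_lt.ne' (Nat.dvd_one.mp h), by simp⟩
  add_mem' := by
    rintro a b ⟨n, hn, h⟩ ⟨k, hk, h'⟩
    refine ⟨n * k, fun h => (hl.dvd_mul.mp h).elim hn hk, ?_⟩
    rw [smul_add]
    refine add_mem ?_ ?_
    · rw [mul_comm, mul_smul]
      exact nsmul_mem h k
    · rw [mul_smul]
      exact nsmul_mem h' n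
  neg_mem' := by
    rintro a ⟨n, hn, h⟩
    refine ⟨n, hn, ?_⟩
    rw [smul_neg]
    exact neg_mem h

/-- `u ^ b` is the part of `u` of order prime to `l`. -/
def Part (l b : ℕ) (G : Type) [Group G] : Prop :=
  ∀ u : G, (orderOf (u ^ b)).Coprime l ∧ ∃ k : ℕ, (u * (u ^ b)⁻¹) ^ (l ^ k) = 1

open Classical in
/-- the function `F` on the elements `u` of `U` for which `u ^ b` and `g` generate the same
subgroup, zero elsewhere -/
noncomputable def genl {G : Type} [Group G] (b : ℕ) (g : G) (F : G → ℂ) (U : Subgroup G) :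
    U → ℂ :=
  fun u => if Subgroup.zpowers ((u : G) ^ b) = Subgroup.zpowers g then F u else 0

/-! ### Group theory -/

/-- **L0**: Chinese remainder theorem for the `l`-part and the prime-to-`l` part of `|G|`. -/
def StL0 : Prop := ∀ (G : Type) [Group G] [Finite G] (l : ℕ), l.Prime → ∃ b : ℕ, Part l b G

/-- **G1L**: `class_solP` (`K4H77.SL.Grp`) and
`f|U = ∑_Q genl b g_Q f U`, sum over the cyclic subgroups `Q = ⟨g_Q⟩` of `U` of order prime to
`l`. -/
def StG1L : Prop :=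
  ∀ (G : Type) [Group G] [Finite G] (l : ℕ) (hl : l.Prime) (b : ℕ), Part l b G → ∀ f : G → ℂ,
    (∀ g x : G, f (x * g * x⁻¹) = f g) → ∀ S : AddSubgroup (G → ℂ),
    (∀ U : Subgroup G, HypP l U → ∀ g ∈ U, (orderOf g).Coprime l →
      ind U (genl b g f U) ∈ satl l hl S) → f ∈ satl l hl S

/-- **L1**: a multiple, prime to `l`, of the indicator function of the set of the `u` in `U` such
that `u ^ b` generates `Q = ⟨g⟩` is a combination of the permutation characters `ind_V^U 1`,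
`V ≤ U`; multiply by `ζ` and induce to `G`. Proof for the indicator function of
`{u : u ^ b ∈ Q}`: let `U = C P` with `C = ⟨c⟩` the normal subgroup of order prime to `l`, `Q ≤ C`
(normal in `U`), `P` a Sylow `l`-subgroup of `U`, and `π` the number of the fixed points on
`U / (Q P)`. Then `π u = 0` if `u ^ b ∉ Q` and `π u ≡ [C : Q]` mod `l` if `u ^ b ∈ Q` (an `l`-group
acts on the fixed points of `u ^ b`), so a polynomial in `π` with integer coefficients and without
constant term is `N` times the indicator function, `N` prime to `l` (compare `existsP_const` and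
`countP_mem` in `K4H77.SL.Grp`); then induction on `|Q|` as in `cyc_span`. -/
def StL1 : Prop :=
  ∀ (G : Type) [Group G] [Finite G] (l : ℕ) (hl : l.Prime) (b : ℕ), Part l b G →
    ∀ U : Subgroup G, HypP l U → ∀ g ∈ U, (orderOf g).Coprime l →
    ∀ (S : AddSubgroup (G → ℂ)) (F : G → ℂ) (ζ : U → ℂ),
    (∀ u x : U, ζ (x * u * x⁻¹) = ζ u) →
    (∀ u : U, Subgroup.zpowers ((u : G) ^ b) = Subgroup.zpowers g → F u = ζ u) →
    (∀ (V : Subgroup G) (hV : V ≤ U), ind V (fun v => ζ ⟨(v : G), hV v.2⟩) ∈ S) →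
    ind U (genl b g F U) ∈ satl l hl S

/-! ### Number theory -/

/-- `TrivSplit` for the cyclic extensions whose degree divides `e`. -/
def TrivSplitE {M : Type} [CommGroup M] (A : ArtinInvariant M) (m e : ℕ) : Prop :=
  ∀ (K L : Type) [Field K] [NumberField K] [Field L] [NumberField L] [Algebra K L] [IsGalois K L],
    IsTotallyComplex K → IsCyclic (L ≃ₐ[K] L) → (∀ g : L ≃ₐ[K] L, g ^ e = 1) →
    (∀ P : Ideal (𝓞 L), P.IsMaximal → ∀ g ∈ inertia K P, g = 1) →
    (∀ P : Ideal (𝓞 L), P.IsMaximal → (m : 𝓞 L) ∈ P → ∀ g ∈ decomp K P, g = 1) →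
    ∀ χ : (L ≃ₐ[K] L) → ℂ, IsChar χ → A.val K L χ = 1

/-- **L2** (as `ind_split` in `K4H77.SL.Asm`): `F` the fixed field of `V`, `E` the fixed field of
the kernel of `κ`; `E / F` is unramified and split at the primes above `m`, by `lift_decomp` and
the lifting of inertia elements (see the proof of `unram_sub` in `K4H77.SL.Lin`). -/
def StL2 : Prop :=
  ∀ (Mg : Type) [CommGroup Mg] (A : ArtinInvariant Mg) (m e : ℕ), TrivSplitE A m e →
    ∀ (N : Type) [Field N] [NumberField N] [IsGalois ℚ N] (V : Subgroup (N ≃ₐ[ℚ] N)),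
    Hyper V → IsTotallyComplex (IntermediateField.fixedField V) →
    ∀ (Γ : Type) [Group Γ] [Finite Γ] (κ : V →* Γ), IsCyclic κ.range → (∀ y ∈ κ.range, y ^ e = 1) →
    (∀ (u : V) (Q : Ideal (𝓞 N)), Q.IsMaximal → (u : N ≃ₐ[ℚ] N) ∈ decomp ℚ Q → (m : 𝓞 N) ∈ Q →
      κ u = 1) →
    (∀ (u : V) (Q : Ideal (𝓞 N)), Q.IsMaximal → (u : N ≃ₐ[ℚ] N) ∈ inertia ℚ Q → κ u = 1) →
    ∀ ζ : Γ → ℂ, IsChar ζ → ind V (fun u => ζ (κ u)) ∈ TT A (K := ℚ) (L := N) ⊥

/-- **L3**: the decomposition group of a prime of `L₀` acts on `L`, since the decomposition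
elements which are trivial on `L₀` are trivial on `L` (`LocA`). First step: a decomposition
element at `Q ∩ L₀` lifts to a decomposition element at the given prime `Q` (see
`lift_decomp` in `K4H77.SL.Asm`). -/
def StL3 : Prop :=
  ∀ (L L₀ N₁ M : Type) [Field L] [NumberField L] [IsGalois ℚ L] [Field L₀] [NumberField L₀]
    [IsGalois ℚ L₀] [Field N₁] [NumberField N₁] [IsGalois ℚ N₁] [Field M] [NumberField M]
    [IsGalois ℚ M] [Algebra L₀ N₁] [Algebra N₁ M] [Algebra L M] (s : ℕ), LocA L L₀ N₁ M s →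
    ∀ Q : Ideal (𝓞 M), Q.IsMaximal → (s : 𝓞 M) ∈ Q → ∀ (U : Type) [Group U]
    (r : U →* (L₀ ≃ₐ[ℚ] L₀)),
    (∀ u, r u ∈ decomp ℚ ((Q.comap (algebraMap (𝓞 N₁) (𝓞 M))).comap
      (algebraMap (𝓞 L₀) (𝓞 N₁)))) →
    ∃ ρ : U →* (L ≃ₐ[ℚ] L), ∀ (u : U) (σ : M ≃ₐ[ℚ] M), σ ∈ decomp ℚ Q →
      rq L₀ N₁ (rq N₁ M σ) = r u → ρ u = rq L M σ

end Pool.Agent.K4H34.NC
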