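import Mathlib
import Pool.Agent.K4H34.NC.Spec
import Pool.Agent.K4H77.SL.Main2

/-!
# Elements of order prime to `l` in hyperelementary groups
-/

set_option autoImplicit false
set_option linter.unusedSectionVars false

namespace Pool.Agent.K4H34.NC

open Pool.Agent.R389 Pool.Agent.K4H77.SL Pool.Agent.H302R2 Pool.Agent.H302R3

/-- elements of order prime to `l` are in the cyclic subgroup -/
lemma mem_c {l : ℕ} (hl : l.Prime) {U : Type} [Group U] {c : U}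
    (hpw : ∀ u : U, ∃ k : ℕ, u ^ (l ^ k) ∈ Subgroup.zpowers c) {g : U}
    (hg : (orderOf g).Coprime l) : g ∈ Subgroup.zpowers c := by
  obtain ⟨k, hk⟩ := hpw g
  have h1 := pow_self (x := g) (n := l ^ k) (Nat.Coprime.pow_left _ hg.symm)
  exact (Subgroup.zpowers_le.mpr hk) h1

lemma hyp_conj {l : ℕ} (hl : l.Prime) {G : Type} [Group G] [Finite G] {U : Subgroup G}
    (hU : HypP l U) {g u : G} (hgU : g ∈ U) (hg : (orderOf g).Coprime l) (hu : u ∈ U) :
    g ∈ Subgroup.zpowers (u * g * u⁻¹) := by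
  obtain ⟨c, hcop, hn, hpw⟩ := hU
  have h1 : (⟨g, hgU⟩ : U) ∈ Subgroup.zpowers c := mem_c hl hpw (by rwa [Subgroup.orderOf_mk])
  have h2 := mem_zpowers_conj (c := c) (x := (⟨u, hu⟩ : U)) h1 (conj_zpowers hn ⟨u, hu⟩ h1)
  obtain ⟨i, hi⟩ := h2
  exact ⟨i, congrArg Subtype.val hi⟩

lemma hyp_comm {l : ℕ} (hl : l.Prime) {G : Type} [Group G] {U : Subgroup G}
    (hU : HypP l U) {g a : G} (hgU : g ∈ U) (hg : (orderOf g).Coprime l) (haU : a ∈ U)
    (ha : (orderOf a).Coprime l) : g * a = a * g := by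
  obtain ⟨c, hcop, hn, hpw⟩ := hU
  obtain ⟨i, hi⟩ : (⟨g, hgU⟩ : U) ∈ Subgroup.zpowers c :=
    mem_c hl hpw (by rwa [Subgroup.orderOf_mk])
  obtain ⟨j, hj⟩ : (⟨a, haU⟩ : U) ∈ Subgroup.zpowers c :=
    mem_c hl hpw (by rwa [Subgroup.orderOf_mk])
  have h1 : (⟨g, hgU⟩ : U) * ⟨a, haU⟩ = ⟨a, haU⟩ * ⟨g, hgU⟩ := by
    rw [← hi, ← hj]
    simp only
    rw [← zpow_add, ← zpow_add, add_comm]
  exact congrArg Subtype.val h1

lemma coprime_of_pow {l n : ℕ} (hl : l.Prime) (hn : ¬ l ∣ n) {Γ : Type} [Group Γ] {y : Γ}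
    (hy : y ^ n = 1) (k : ℕ) : (l ^ k).Coprime (orderOf y) := by
  apply Nat.Coprime.pow_left
  rw [Nat.Prime.coprime_iff_not_dvd hl]
  intro h
  exact hn (h.trans (orderOf_dvd_of_pow_eq_one hy))

lemma hyp_cyclic_range {l n : ℕ} (hl : l.Prime) (hn : ¬ l ∣ n) {V Γ : Type} [Group V] [Group Γ]
    (hV : HypP l V) (κ : V →* Γ) (h : ∀ v, κ v ^ n = 1) : IsCyclic κ.range := by
  obtain ⟨c, hcop, hnn, hpw⟩ := hV
  refine ⟨⟨⟨κ c, c, rfl⟩, ?_⟩⟩
  rintro ⟨y, u, rfl⟩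
  obtain ⟨k, j, hj⟩ := hpw u
  have h1 := pow_self (x := κ u) (n := l ^ k) (coprime_of_pow hl hn (h u) k)
  rw [← map_pow, ← show c ^ j = u ^ (l ^ k) from hj, map_zpow] at h1
  obtain ⟨i, hi⟩ := h1
  refine ⟨j * i, ?_⟩
  apply Subtype.ext
  change κ c ^ (j * i) = κ u
  rw [zpow_mul]
  exact hi

lemma part_apply {l n b : ℕ} (hl : l.Prime) (hn : ¬ l ∣ n) {G Γ : Type} [Group G] [Group Γ]
    (hb : Part l b G) (κ : G →* Γ) (h : ∀ v, κ v ^ n = 1) (u : G) : κ (u ^ b) = κ u := by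
  obtain ⟨k, hk⟩ := (hb u).2
  have h1 : κ (u * (u ^ b)⁻¹) ^ (l ^ k) = 1 := by rw [← map_pow, hk, map_one]
  have h2 := pow_self (x := κ (u * (u ^ b)⁻¹)) (n := l ^ k) (coprime_of_pow hl hn (h _) k)
  rw [h1, Subgroup.zpowers_one_eq_bot, Subgroup.mem_bot, map_mul, map_inv, mul_inv_eq_one] at h2
  exact h2.symm

lemma Part.map {l b : ℕ} {G H : Type} [Group G] [Group H] [Finite G] (hb : Part l b G) (f : G →* H)
    (hf : Function.Surjective f) : Part l b H := by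
  intro y
  obtain ⟨u, rfl⟩ := hf y
  obtain ⟨h1, k, hk⟩ := hb u
  refine ⟨?_, k, ?_⟩
  · rw [← map_pow]
    exact Nat.Coprime.coprime_dvd_left (orderOf_map_dvd f _) h1
  · rw [← map_pow, ← map_inv, ← map_mul, ← map_pow, hk, map_one]

lemma Part.sub {l b : ℕ} {G : Type} [Group G] (hb : Part l b G) (U : Subgroup G) :
    Part l b U := by
  intro u
  obtain ⟨h1, k, hk⟩ := hb (u : G)
  refine ⟨?_, k, ?_⟩
  · have h2 : orderOf ((u : G) ^ b) = orderOf (u ^ b) := by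
      rw [← Subgroup.coe_pow, Subgroup.orderOf_coe]
    rwa [← h2]
  · apply Subtype.ext
    exact hk

/-- an involution in a hyperelementary group at an odd prime is central -/
lemma invol_central {l : ℕ} (hl : l.Prime) (h2 : l ≠ 2) {G : Type} [Group G] [Finite G]
    {U : Subgroup G} (hU : HypP l U) {d : G} (hdU : d ∈ U) (hdd : d * d = 1) (hd1 : d ≠ 1)
    {x : G} (hx : x ∈ U) : x * d = d * x := by
  have hdo : (orderOf d).Coprime l := by
    have h3 : orderOf d ∣ 2 := orderOf_dvd_of_pow_eq_one (by rw [pow_two, hdd])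
    refine Nat.Coprime.coprime_dvd_left h3 ?_
    rw [Nat.coprime_primes Nat.prime_two hl]
    exact h2.symm
  obtain ⟨i, hi⟩ := hyp_conj hl hU hdU hdo hx
  have h2 : (x * d * x⁻¹) ^ i = d := hi
  have h3 : (x * d * x⁻¹) * (x * d * x⁻¹) = 1 := by
    have : x * d * x⁻¹ * (x * d * x⁻¹) = x * (d * d) * x⁻¹ := by group
    rw [this, hdd]; group
  have h5 : (x * d * x⁻¹) ^ (2 : ℤ) = 1 := by
    have := pow_two (x * d * x⁻¹)
    rw [h3] at this
    exact_mod_cast this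
  have h4 : x * d * x⁻¹ = d := by
    rcases Int.even_or_odd' i with ⟨t, rfl | rfl⟩
    · exfalso
      apply hd1
      rw [← h2, zpow_mul, h5, one_zpow]
    · rw [zpow_add, zpow_mul, h5, one_zpow, one_mul, zpow_one] at h2
      exact h2
  calc x * d = x * d * x⁻¹ * x := by group
    _ = d * x := by rw [h4]

end Pool.Agent.K4H34.NC
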