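import Mathlib
import Pool.Agent.K4H34.NC.Grp
import Pool.Agent.K4H34.ST.Main3

/-!
# The local values on hyperelementary subgroups
-/

set_option autoImplicit false
set_option linter.unusedSectionVars false

namespace Pool.Agent.K4H34.NC

open NumberField NumberField.ComplexEmbedding Polynomial Pool.Agent.R389 Pool.Agent.K4H74.ST
  Pool.Agent.K4H77.SL Pool.Agent.H302R2 Pool.Agent.H302R3 Pool.Agent.K4H34.ST
open scoped Pointwise

/-- the use of the theorem of Schmidt -/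
lemma dec_of_conj {E F : Type} [Field E] [NumberField E] [IsGalois ℚ E] [Field F] [NumberField F]
    [IsGalois ℚ F] [Algebra E F] {t : ℕ} (hS : Schm E F t) {g u : F ≃ₐ[ℚ] F}
    (hu : u ∈ Subgroup.zpowers (g * u * g⁻¹)) {Q : Ideal (𝓞 F)} (hQ : Q.IsMaximal)
    (ht : (t : 𝓞 F) ∈ Q) (huQ : u ∈ decomp ℚ Q) (h1 : rq E F u ≠ 1) :
    rq E F g ∈ decomp ℚ (Q.comap (algebraMap (𝓞 E) (𝓞 F))) := by
  have h3 : u ∈ decomp ℚ (g • Q) := by
    obtain ⟨i, hi⟩ := hu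
    have h2 : (g * u * g⁻¹) ^ i = u := hi
    rw [← h2]
    exact decomp_zpow (decomp_conj huQ) i
  have h5 := hS u Q (g • Q) hQ (smul_max hQ) ht (nat_mem_smul ht) huQ h3 h1
  intro y
  conv_lhs => rw [h5]
  rw [Ideal.mem_comap, Ideal.mem_comap, rq_gi]
  change g • algebraMap (𝓞 E) (𝓞 F) y ∈ g • Q ↔ _
  rw [Ideal.smul_mem_pointwise_smul_iff]

section ctx

variable {L L₀ N₁ M : Type} [Field L] [NumberField L] [IsGalois ℚ L] [Field L₀] [NumberField L₀]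
  [IsGalois ℚ L₀] [Field N₁] [NumberField N₁] [IsGalois ℚ N₁] [Field M] [NumberField M]
  [IsGalois ℚ M] [Algebra L₀ N₁] [Algebra N₁ M] [Algebra L M]

/-- the homomorphism given by a decomposition element -/
theorem key_rho (hL3 : StL3) {l b n : ℕ} (hl : l.Prime) (hn : ¬ l ∣ n) {s t : ℕ} (hst : s ∣ t)
    (hA : LocA L L₀ N₁ M s) (hB : Schm L₀ N₁ t) (hnL : ∀ y : L ≃ₐ[ℚ] L, y ^ n = 1)
    {G : Type} [Group G] [Finite G] (hb : Part l b G) (π : G →* (N₁ ≃ₐ[ℚ] N₁)) {U : Subgroup G}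
    (hU : HypP l U) {g : G} (hgU : g ∈ U) (hg : (orderOf g).Coprime l)
    {σ : M ≃ₐ[ℚ] M} (hσ : Dec s σ) (h1 : rq N₁ M σ = π g) (h0 : rq L₀ N₁ (π g) ≠ 1)
    {χ : (L ≃ₐ[ℚ] L) → ℂ} (hχ : ∀ g x, χ (x * g * x⁻¹) = χ g) :
    ∃ ρ : U →* (L ≃ₐ[ℚ] L), (∀ u : U, rq L₀ N₁ (π u) = 1 → ρ u = 1) ∧
      ∀ u : U, Subgroup.zpowers ((u : G) ^ b) = Subgroup.zpowers g →
        theta s (fun y => χ y - χ 1) L₀ N₁ M (π ((u : G) ^ b)) = χ (ρ u) - χ 1 := by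
  have hχ' : ∀ g x, (fun y => χ y - χ 1) (x * g * x⁻¹) = (fun y => χ y - χ 1) g := by
    intro g x
    simp only [hχ]
  obtain ⟨Q, hQ, hsQ, hσQ⟩ := hσ
  have hσ : Dec s σ := ⟨Q, hQ, hsQ, hσQ⟩
  have hP : (Q.comap (algebraMap (𝓞 N₁) (𝓞 M))).IsMaximal := comap_max (E := N₁) hQ
  have htP : (t : 𝓞 N₁) ∈ Q.comap (algebraMap (𝓞 N₁) (𝓞 M)) := by
    rw [nat_mem_comap]
    obtain ⟨k, rfl⟩ := hst
    rw [Nat.cast_mul]
    exact Q.mul_mem_right _ hsQ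
  have hgP : π g ∈ decomp ℚ (Q.comap (algebraMap (𝓞 N₁) (𝓞 M))) := by
    rw [← h1]
    exact decomp_res hσQ
  have hdec : ∀ u ∈ U, rq L₀ N₁ (π u) ∈ decomp ℚ ((Q.comap (algebraMap (𝓞 N₁) (𝓞 M))).comap
      (algebraMap (𝓞 L₀) (𝓞 N₁))) := by
    intro u hu
    obtain ⟨i, hi⟩ := hyp_conj hl hU hgU hg hu
    refine dec_of_conj hB (u := π g) ?_ hP htP hgP h0
    refine ⟨i, ?_⟩
    change (π u * π g * (π u)⁻¹) ^ i = π g
    rw [← map_inv, ← map_mul, ← map_mul, ← map_zpow]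
    exact congrArg π hi
  obtain ⟨ρ, hρ⟩ := hL3 L L₀ N₁ M s hA Q hQ hsQ U ((rq L₀ N₁).comp (π.comp U.subtype))
    (fun u => hdec u u.2)
  refine ⟨ρ, fun u hu => ?_, fun u hu => ?_⟩
  · rw [hρ u 1 (decomp_one Q) (by rw [map_one, map_one]; exact hu.symm), map_one]
  · obtain ⟨j, hj⟩ : (u : G) ^ b ∈ Subgroup.zpowers g := by
      rw [← hu]
      exact Subgroup.mem_zpowers _
    have hj' : g ^ j = (u : G) ^ b := hj
    have e1 : rq N₁ M (σ ^ j) = π ((u : G) ^ b) := by rw [map_zpow, h1, ← map_zpow, hj']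
    have e2 : rq L₀ N₁ (rq N₁ M (σ ^ j)) ≠ 1 := by
      rw [e1]
      intro h
      exact h0 (map_eq_one_of_zpowers ((rq L₀ N₁).comp π) hu h)
    have e3 := theta_eq (χ := fun y => χ y - χ 1) hχ' hst hA hB (hσ.zpow j) e2
    rw [e1] at e3
    rw [e3]
    have e4 : ρ (u ^ b) = rq L M (σ ^ j) := by
      apply hρ _ _ (decomp_zpow hσQ j)
      rw [e1]
      rfl
    rw [← part_apply hl hn (hb.sub U) ρ (fun v => hnL _) u, e4]

/-- no local values -/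
lemma theta_zero_of {s : ℕ} {χ : (L ≃ₐ[ℚ] L) → ℂ} {G : Type} [Group G] (π : G →* (N₁ ≃ₐ[ℚ] N₁))
    {g x : G} (h : ¬ ∃ σ : M ≃ₐ[ℚ] M, rq N₁ M σ = π g ∧ Dec s σ ∧ rq L₀ N₁ (π g) ≠ 1)
    (hx : Subgroup.zpowers x = Subgroup.zpowers g) : theta s χ L₀ N₁ M (π x) = 0 := by
  apply theta_zero
  rintro ⟨σ, h1, h2, h3⟩
  apply h
  obtain ⟨k, hk⟩ : g ∈ Subgroup.zpowers x := by
    rw [hx]
    exact Subgroup.mem_zpowers g
  have hk' : x ^ k = g := hk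
  refine ⟨σ ^ k, by rw [map_zpow, h1, ← map_zpow, hk'], h2.zpow k, fun h4 => h3 ?_⟩
  exact map_eq_one_of_zpowers ((rq L₀ N₁).comp π) hx.symm h4

lemma char_one_int {G : Type} [Group G] {χ : G → ℂ} (h : IsChar χ) : ∃ z : ℤ, χ 1 = z := by
  obtain ⟨V, _, _, _, ρ, rfl⟩ := h
  exact ⟨Module.finrank ℂ V, by rw [ρ.char_one]; simp⟩

/-- some multiple, by a number prime to `l`, of the `l`-local values is a virtual character -/
theorem thl_mem (hG1L : StG1L) (hL1 : StL1) (hL3 : StL3) {l b n : ℕ} (hl : l.Prime)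
    (hn : ¬ l ∣ n) {s t : ℕ} (hst : s ∣ t) (hA : LocA L L₀ N₁ M s) (hB : Schm L₀ N₁ t)
    (hnL : ∀ y : L ≃ₐ[ℚ] L, y ^ n = 1) (hb : Part l b (N₁ ≃ₐ[ℚ] N₁)) {χ : (L ≃ₐ[ℚ] L) → ℂ}
    (hχc : IsChar χ) :
    (fun τ : N₁ ≃ₐ[ℚ] N₁ => theta s (fun y => χ y - χ 1) L₀ N₁ M (τ ^ b)) ∈ satl l hl
      (AddSubgroup.closure {f : (N₁ ≃ₐ[ℚ] N₁) → ℂ |
        ∃ (V : Subgroup (N₁ ≃ₐ[ℚ] N₁)) (ψ : V →* ℂˣ), f = ind V (lc ψ)}) := by
  have hfin : FiniteDimensional ℚ N₁ := inferInstance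
  have hfinL : FiniteDimensional ℚ L := inferInstance
  have hχ : ∀ g x, χ (x * g * x⁻¹) = χ g := by
    obtain ⟨V, _, _, _, ρ, rfl⟩ := hχc
    intro g x
    exact ρ.char_conj g x
  have hχ' : ∀ g x, (fun y => χ y - χ 1) (x * g * x⁻¹) = (fun y => χ y - χ 1) g := by
    intro g x
    simp only [hχ]
  obtain ⟨z, hz⟩ := char_one_int hχc
  refine hG1L _ l hl b hb _ (fun τ x => ?_) _ fun U hU g hgU hg => ?_
  · change theta s (fun y => χ y - χ 1) L₀ N₁ M ((x * τ * x⁻¹) ^ b) = _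
    rw [conj_pow, theta_class (χ := fun y => χ y - χ 1) hχ' hst hA hB]
  by_cases h : ∃ σ : M ≃ₐ[ℚ] M, rq N₁ M σ = (MonoidHom.id (N₁ ≃ₐ[ℚ] N₁)) g ∧ Dec s σ ∧
      rq L₀ N₁ ((MonoidHom.id (N₁ ≃ₐ[ℚ] N₁)) g) ≠ 1
  · obtain ⟨σ, h1, h2, h3⟩ := h
    obtain ⟨ρ, -, hρ⟩ := key_rho hL3 hl hn hst hA hB hnL hb (MonoidHom.id _) hU hgU hg h2 h1 h3 hχ
    refine hL1 _ l hl b hb U hU g hgU hg _ _ (fun u => χ (ρ u) - χ 1) ?_ ?_ ?_
    · intro u x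
      simp only [map_mul, map_inv, hχ]
    · intro u hu
      exact hρ u hu
    · intro V hV
      have e1 : (fun v : V => χ (ρ ⟨(v : N₁ ≃ₐ[ℚ] N₁), hV v.2⟩) - χ 1)
          = (fun v : V => χ (ρ (Subgroup.inclusion hV v))) - z • (lc (1 : V →* ℂˣ)) := by
        funext v
        rw [Pi.sub_apply, Pi.smul_apply, hz]
        simp [lc, Subgroup.inclusion]
      have hVH : HypP l V := hU.of_injective (Subgroup.inclusion hV)
        (Subgroup.inclusion_injective hV)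
      have hVh : Hyper V := ⟨l, hl, hVH⟩
      have e2 := map_zsmul (indHom (k := ℂ) V) z (lc (1 : V →* ℂˣ))
      rw [indHom_apply, indHom_apply] at e2
      have e3 : ind V (lc (1 : V →* ℂˣ)) ∈ AddSubgroup.closure {f : (N₁ ≃ₐ[ℚ] N₁) → ℂ |
          ∃ (V : Subgroup (N₁ ≃ₐ[ℚ] N₁)) (ψ : V →* ℂˣ), f = ind V (lc ψ)} :=
        AddSubgroup.subset_closure ⟨V, 1, rfl⟩
      rw [e1, ind_sub, e2]
      exact sub_mem (ind_hyper_mem hVh (IsChar.comp hχc (ρ.comp (Subgroup.inclusion hV))))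
        (zsmul_mem e3 z)
  · have h0 : genl b g (fun τ : N₁ ≃ₐ[ℚ] N₁ => theta s (fun y => χ y - χ 1) L₀ N₁ M (τ ^ b)) U
        = 0 := by
      funext x
      unfold genl
      split_ifs with hx
      · exact theta_zero_of (MonoidHom.id _) h hx
      · rfl
    rw [h0, ind_zero]
    exact zero_mem _

end ctx

end Pool.Agent.K4H34.NC
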