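import Mathlib
import Pool.Agent.K4H34.NC.Core
import Pool.Agent.K4H34.ST.Q
import Pool.Agent.K4H34.ST.C
import Pool.Agent.K4H34.ST.Odd
import Pool.Agent.K4H34.ST.Main6
import Pool.Agent.K4H36.TR.Spec

/-!
# Control of the multiples: assembly
-/

set_option autoImplicit false
set_option linter.unusedSectionVars false

namespace Pool.Agent.K4H34.NC

open NumberField NumberField.ComplexEmbedding Polynomial Pool.Agent.R389 Pool.Agent.K4H74.ST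
  Pool.Agent.K4H77.SL Pool.Agent.H302R2 Pool.Agent.H302R3 Pool.Agent.K4H34.ST
open scoped Pointwise

/-- a complex conjugation is not trivial when `-1` is a square -/
lemma cc_ne_one {N : Type} [Field N] [NumberField N] [IsGalois ℚ N] (hj : ∃ j : N, j * j = -1)
    {d : N ≃ₐ[ℚ] N} (hd : d ∈ CC ℚ N) : d ≠ 1 := by
  obtain ⟨j, hj⟩ := hj
  obtain ⟨φ, hφ⟩ := hd
  intro h
  have h1 : d j = - j := by
    refine sqrt_neg hφ ?_ ?_
    · rw [hj, map_neg, map_one]; simp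
    · rw [hj, map_neg, map_one]; simp
  rw [h] at h1
  have h3 : j = 0 := self_eq_neg.mp h1
  rw [h3, mul_zero] at hj
  exact one_ne_zero (neg_eq_zero.mp hj.symm)

section ctx

variable {L L₀ N₁ M N : Type} [Field L] [NumberField L] [IsGalois ℚ L] [Field L₀] [NumberField L₀]
  [IsGalois ℚ L₀] [Field N₁] [NumberField N₁] [IsGalois ℚ N₁] [Field M] [NumberField M]
  [IsGalois ℚ M] [Field N] [NumberField N] [IsGalois ℚ N] [Algebra L₀ N₁] [Algebra N₁ M]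
  [Algebra L M] [Algebra M N]

variable {Mg : Type} [CommGroup Mg] {A : ArtinInvariant Mg}

/-- the difference of a character and the twist of its local values, on one hyperelementary
subgroup -/
theorem core_l (hL1 : StL1) (hL2 : StL2) (hL3 : StL3) {l b n e : ℕ} (hl : l.Prime)
    (hl2 : l ≠ 2) (hn : ¬ l ∣ n) {m s t : ℕ} (hR : TrivOne A) (hTS : TrivSplitE A m e)
    (hms : m ∣ s) (hst : s ∣ t)
    (hA : LocA L L₀ N₁ M s) (hB : Schm L₀ N₁ t) (hC : Schm M N t)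
    (hramL : ∀ P : Ideal (𝓞 L), (∃ g ∈ inertia ℚ P, g ≠ 1) → (s : 𝓞 L) ∈ P)
    (hram0 : ∀ P : Ideal (𝓞 L₀), (∃ g ∈ inertia ℚ P, g ≠ 1) → (t : 𝓞 L₀) ∈ P)
    (hN₁ : IsTotallyReal N₁) (hj : ∃ j : N, j * j = -1)
    (hcc : ∀ c ∈ CC ℚ N, ∀ g : N ≃ₐ[ℚ] N, g * c = c * g → rq M N g = 1 ∨ rq M N g = rq M N c)
    (ε : (M ≃ₐ[ℚ] M) →* ℂˣ) (η : 𝓞 M) (hεs : ∀ σ, Dec s σ → ε σ = 1)
    (hεi : ∀ (σ : M ≃ₐ[ℚ] M) (Q : Ideal (𝓞 M)), Q.IsMaximal → (t : 𝓞 M) ∉ Q →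
        gi σ η - η ∈ Q → ε σ = 1)
    (hnL : ∀ y : L ≃ₐ[ℚ] L, y ^ n = 1) (heL : ∀ y : L ≃ₐ[ℚ] L, y ^ e = 1)
    (hnε : ∀ σ, ε σ ^ n = 1) (heε : ∀ σ, ε σ ^ e = 1)
    (hb : Part l b (N ≃ₐ[ℚ] N)) {χ : (L ≃ₐ[ℚ] L) → ℂ} (hχ : IsChar χ)
    {U : Subgroup (N ≃ₐ[ℚ] N)} (hU : HypP l U) {g : N ≃ₐ[ℚ] N} (hgU : g ∈ U)
    (hg : (orderOf g).Coprime l) :
    ind U (genl b g (fun x => χ (rq L M (rq M N x)) - ((ε (rq M N x) : ℂˣ) : ℂ) *
      theta s (fun y => χ y - χ 1) L₀ N₁ M (rq N₁ M (rq M N (x ^ b)))) U)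
        ∈ satl l hl (TT A (K := ℚ) (L := N) ⊥) := by
  have hfin : FiniteDimensional ℚ N := inferInstance
  have hfinM : FiniteDimensional ℚ M := inferInstance
  have hfinL : FiniteDimensional ℚ L := inferInstance
  have hχc : ∀ g x, χ (x * g * x⁻¹) = χ g := (IsChar.heil hχ).conj
  have hχ' : ∀ g x, (fun y => χ y - χ 1) (x * g * x⁻¹) = (fun y => χ y - χ 1) g := by
    intro g x
    simp only [hχc]
  let r : (N ≃ₐ[ℚ] N) →* (L ≃ₐ[ℚ] L) := (rq L M).comp (rq M N)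
  have hrb : ∀ x, r (x ^ b) = r x := part_apply hl hn hb r (fun v => hnL _)
  have hεb : ∀ u : N ≃ₐ[ℚ] N, ε (rq M N (u ^ b)) = ε (rq M N u) :=
    part_apply hl hn hb (ε.comp (rq M N)) (fun v => hnε _)
  by_cases hc : ∃ c ∈ CC ℚ N, c ∈ U
  · obtain ⟨c, hc, hcU⟩ := hc
    have hcsq : c * c = 1 := by
      obtain ⟨φ, hφ⟩ := hc
      exact isConj_sq hφ
    have hcase : ∀ x ∈ U, rq M N x = 1 ∨ rq M N x = rq M N c := fun x hx =>
      hcc c hc x (invol_central hl hl2 hU hcU hcsq (cc_ne_one hj hc) hx)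
    have hc1 : rq N₁ M (rq M N c) = 1 := cc_real hN₁ (CC_res (CC_res hc))
    have h00 : IsChar (0 : (L ≃ₐ[ℚ] L) → ℂ) := IsChar.zero
    have hsq : r g * r g = 1 := by
      rcases hcase g hgU with h | h
      · change rq L M (rq M N g) * rq L M (rq M N g) = 1
        rw [h, map_one, mul_one]
      · change rq L M (rq M N g) * rq L M (rq M N g) = 1
        rw [h, ← map_mul, ← map_mul, hcsq, map_one, map_one]
    obtain ⟨q, hq⟩ := rat_invol (IsChar.heil hχ) hsq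
    obtain ⟨z, hz⟩ := rat_int (IsChar.heil hχ) (IsChar.heil h00) (r g)
      ⟨q, by rw [Pi.zero_apply, sub_zero]; exact hq⟩
    refine const_l hL1 hl hb hR hU hgU hg (z := z) fun u hu => ?_
    have h1 := hz (r ((u : N ≃ₐ[ℚ] N) ^ b)) (zpowers_map r hu)
    rw [Pi.zero_apply, sub_zero, hrb] at h1
    have h2 : rq L₀ N₁ (rq N₁ M (rq M N ((u : N ≃ₐ[ℚ] N) ^ b))) = 1 := by
      rcases hcase _ (U.pow_mem u.2 b) with h | h
      · rw [h, map_one, map_one]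
      · rw [h, hc1, map_one]
    rw [theta_zero (by
      rintro ⟨-, -, -, h⟩
      exact h h2), mul_zero, sub_zero]
    exact h1
  push Not at hc
  by_cases hgd : Dec s (rq M N g)
  · obtain ⟨z, hz⟩ := char_one_int hχ
    refine const_l hL1 hl hb hR hU hgU hg (z := z) fun u hu => ?_
    obtain ⟨j, hj⟩ : (u : N ≃ₐ[ℚ] N) ^ b ∈ Subgroup.zpowers g := by
      rw [← hu]
      exact Subgroup.mem_zpowers _
    have hj' : g ^ j = (u : N ≃ₐ[ℚ] N) ^ b := hj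
    have hd : Dec s (rq M N ((u : N ≃ₐ[ℚ] N) ^ b)) := by
      rw [← hj', map_zpow]
      exact hgd.zpow j
    have hε1 : ε (rq M N (u : N ≃ₐ[ℚ] N)) = 1 := by
      rw [← hεb]
      exact hεs _ hd
    have hχu : χ (rq L M (rq M N (u : N ≃ₐ[ℚ] N))) = χ (rq L M (rq M N ((u : N ≃ₐ[ℚ] N) ^ b))) :=
      congrArg χ (hrb u).symm
    by_cases h0 : rq L₀ N₁ (rq N₁ M (rq M N ((u : N ≃ₐ[ℚ] N) ^ b))) = 1
    · rw [theta_zero (by
        rintro ⟨-, -, -, h⟩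
        exact h h0), mul_zero, sub_zero, hχu, hA _ hd h0, hz]
    · rw [theta_eq (χ := fun y => χ y - χ 1) hχ' hst hA hB hd h0, hε1, hχu, hz]
      simp
  · rw [genl_sub, ind_sub]
    exact sub_mem (f_part_l hL1 hL2 hl hn hTS hms hst hC hramL hnL heL hb hχ hU hgU hg hc hgd)
      (g_part_l hL1 hL2 hL3 hl hn hR hTS hms hst hA hB hC hram0 ε η hεi hnL heL hnε heε hb hχ hU
        hgU hg hc hgd)

end ctx

/-- **ODD**, with control of the multiple -/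
theorem odd_l {Mg : Type} [CommGroup Mg] {A : ArtinInvariant Mg} (hO : TrivOdd A)
    {l : ℕ} (hl : l.Prime)
    (N N₁ : Type) [Field N] [NumberField N] [IsGalois ℚ N] [Field N₁] [NumberField N₁]
    [IsGalois ℚ N₁] [Algebra N₁ N] (hN₁ : IsTotallyReal N₁) (ε : (N ≃ₐ[ℚ] N) →* ℂˣ)
    (hε : ∀ c ∈ CC ℚ N, ε c = -1) (θ : (N₁ ≃ₐ[ℚ] N₁) → ℂ)
    (hθ : θ ∈ satl l hl (AddSubgroup.closure {f : (N₁ ≃ₐ[ℚ] N₁) → ℂ |
      ∃ (V : Subgroup (N₁ ≃ₐ[ℚ] N₁)) (ψ : V →* ℂˣ), f = ind V (lc ψ)})) :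
    (fun g => ((ε g : ℂˣ) : ℂ) * θ (AlgEquiv.restrictNormalHom N₁ g))
      ∈ satl l hl (TT A (K := ℚ) (L := N) ⊥) := by
  obtain ⟨n, hn, h⟩ := hθ
  refine ⟨n, hn, ?_⟩
  have hfin1 : FiniteDimensional ℚ N₁ := inferInstance
  let T : ((N₁ ≃ₐ[ℚ] N₁) → ℂ) →+ ((N ≃ₐ[ℚ] N) → ℂ) :=
    { toFun := fun f g => ((ε g : ℂˣ) : ℂ) * f (AlgEquiv.restrictNormalHom N₁ g)
      map_zero' := by funext g; simp
      map_add' := by intro a b; funext g; simp [mul_add] }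
  have h1 : AddSubgroup.closure {f : (N₁ ≃ₐ[ℚ] N₁) → ℂ |
      ∃ (V : Subgroup (N₁ ≃ₐ[ℚ] N₁)) (ψ : V →* ℂˣ), f = ind V (lc ψ)} ≤
      (TT A (K := ℚ) (L := N) ⊥).comap T := by
    rw [AddSubgroup.closure_le]
    rintro f ⟨V, ψ, rfl⟩
    exact Pool.Agent.K4H74.SO.val_odd hO ℚ N N₁ inferInstance hN₁ ε hε (IsChar.ind_lin V ψ)
  have h2 := h1 h
  rw [AddSubgroup.mem_comap, map_nsmul] at h2
  exact h2

/-- the main theorem over `ℚ`, at one prime -/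
theorem main_rat_l (hL0 : StL0) (hG1L : StG1L) (hL1 : StL1) (hL2 : StL2) (hL3 : StL3)
    {Mg : Type} [CommGroup Mg] {A : ArtinInvariant Mg} {m : ℕ} (hm : m ≠ 0) (hR : TrivOne A)
    (hO : TrivOdd A) (L : Type) [Field L] [NumberField L] [IsGalois ℚ L] {e l : ℕ}
    (heL : ∀ y : L ≃ₐ[ℚ] L, y ^ e = 1) (hTS : TrivSplitE A m (2 * e)) (hl : l.Prime)
    (hlL : ¬ l ∣ 2 * Module.finrank ℚ L)
    {χ : (L ≃ₐ[ℚ] L) → ℂ} (hχ : IsChar χ) :
    ∃ n : ℕ, ¬ l ∣ n ∧ A.val ℚ L χ ^ n = 1 := by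
  have hl2 : l ≠ 2 := by
    rintro rfl
    exact hlL (dvd_mul_right _ _)
  obtain ⟨m₀, hm₀, hram⟩ := exists_ram ℚ L
  obtain ⟨r, hr⟩ : ∃ r : ℕ, r = m * m₀ := ⟨_, rfl⟩
  have hs : r ≠ 0 := hr ▸ mul_ne_zero hm hm₀
  obtain ⟨L₀, i1, i2, i3, hL₀, hloc⟩ := Pool.Agent.K4H36.TR.stA L r hs
  obtain ⟨t₀, ht₀, hramt⟩ := exists_ram ℚ L₀
  have h4s : 4 * r - 1 ≠ 0 := by omega
  obtain ⟨t, htd⟩ : ∃ t : ℕ, t = r * (t₀ * (4 * r - 1)) := ⟨_, rfl⟩
  have ht : t ≠ 0 := htd ▸ mul_ne_zero hs (mul_ne_zero ht₀ h4s)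
  obtain ⟨N₁, j1, j2, j3, j4, hN₁, hB⟩ := Pool.Agent.K4H36.TR.stR2 L₀ hL₀ t ht
  obtain ⟨M, k1, k2, k3, k4, k5, η, hη⟩ := c L N₁ r
  obtain ⟨ε, hε2, hεη, hεc, hεs, hεi⟩ := q r hs M η hη
  obtain ⟨N, l1, l2, l3, l4, l5, l6, hj, hcc, hC⟩ := exists_both ℚ M ht
  have h0 : l3 = DivisionRing.toRatAlgebra := Subsingleton.elim _ _
  subst h0
  have hfin : FiniteDimensional ℚ N := inferInstance
  have hfinL : FiniteDimensional ℚ L := inferInstance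
  have hχc : ∀ g x, χ (x * g * x⁻¹) = χ g := (IsChar.heil hχ).conj
  have hχ' : ∀ g x, (fun y => χ y - χ 1) (x * g * x⁻¹) = (fun y => χ y - χ 1) g := by
    intro g x
    simp only [hχc]
  have hst : r ∣ t := htd ▸ dvd_mul_right _ _
  have hA : LocA L L₀ N₁ M r := by
    rintro σ ⟨Q, hQ, hsQ, hσ⟩ h1
    rw [rq_eq_one]
    let _ : Algebra L₀ M := ((algebraMap N₁ M).comp (algebraMap L₀ N₁)).toAlgebra
    refine hloc M σ Q hQ hsQ hσ fun x => ?_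
    change σ (algebraMap N₁ M (algebraMap L₀ N₁ x)) = algebraMap N₁ M (algebraMap L₀ N₁ x)
    rw [← rq_apply, ← rq_apply, h1]
    rfl
  have hcard : Nat.card (L ≃ₐ[ℚ] L) = Module.finrank ℚ L := IsGalois.card_aut_eq_finrank ℚ L
  have hnL : ∀ y : L ≃ₐ[ℚ] L, y ^ (2 * Module.finrank ℚ L) = 1 := by
    intro y
    rw [mul_comm, pow_mul, ← hcard, pow_card_eq_one', one_pow]
  have heL2 : ∀ y : L ≃ₐ[ℚ] L, y ^ (2 * e) = 1 := by
    intro y
    rw [mul_comm, pow_mul, heL, one_pow]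
  have hε2' : ∀ σ, ε σ ^ 2 = 1 := by
    intro σ
    rcases hε2 σ with h | h
    · rw [h, one_pow]
    · rw [h, neg_one_sq]
  have hnε : ∀ σ, ε σ ^ (2 * Module.finrank ℚ L) = 1 := by
    intro σ
    rw [pow_mul, hε2', one_pow]
  have heε : ∀ σ, ε σ ^ (2 * e) = 1 := by
    intro σ
    rw [pow_mul, hε2', one_pow]
  obtain ⟨b, hb⟩ := hL0 (N ≃ₐ[ℚ] N) l hl
  have hcore := fun (U : Subgroup (N ≃ₐ[ℚ] N)) (hU : HypP l U) (g : N ≃ₐ[ℚ] N) (hgU : g ∈ U)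
      (hg : (orderOf g).Coprime l) => core_l hL1 hL2 hL3 (A := A) (m := m) (s := r) (t := t)
    hl hl2 hlL hR hTS (hr ▸ dvd_mul_right _ _) hst hA hB hC
    (by
      intro P hP
      rw [hr, Nat.cast_mul]
      exact P.mul_mem_left _ (hram P hP))
    (by
      intro P hP
      have h1 : (t : 𝓞 L₀) = (r : 𝓞 L₀) * (((4 * r - 1 : ℕ) : 𝓞 L₀) * (t₀ : 𝓞 L₀)) := by
        rw [htd, Nat.cast_mul, Nat.cast_mul]
        ring
      rw [h1]
      exact P.mul_mem_left _ (P.mul_mem_left _ (hramt P hP)))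
    hN₁ hj hcc ε η
    (by
      rintro σ ⟨Q, hQ, hsQ, hσ⟩
      exact hεs σ Q hQ hsQ hσ)
    (by
      intro σ Q hQ htQ hσ
      refine hεi σ Q hQ ?_ hσ
      intro h4
      apply htQ
      have h1 : (t : 𝓞 M) = (r : 𝓞 M) * ((t₀ : 𝓞 M) * ((4 * r - 1 : ℕ) : 𝓞 M)) := by
        rw [htd, Nat.cast_mul, Nat.cast_mul]
      rw [h1]
      exact Q.mul_mem_left _ (Q.mul_mem_left _ h4))
    hnL heL2 hnε heε hb hχ hU hgU hg
  let Th : (N₁ ≃ₐ[ℚ] N₁) → ℂ := fun τ => theta r (fun y => χ y - χ 1) L₀ N₁ M (τ ^ b)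
  have hThN : ∀ g : N ≃ₐ[ℚ] N, Th (rq N₁ M (rq M N g))
      = theta r (fun y => χ y - χ 1) L₀ N₁ M (rq N₁ M (rq M N (g ^ b))) := by
    intro g
    rw [map_pow, map_pow]
  -- the totally odd part
  have hodd : (fun g : N ≃ₐ[ℚ] N => ((ε (rq M N g) : ℂˣ) : ℂ) * Th (rq N₁ M (rq M N g)))
      ∈ satl l hl (TT A (K := ℚ) (L := N) ⊥) := by
    let _ : Algebra N₁ N := ((algebraMap M N).comp (algebraMap N₁ M)).toAlgebra
    have hres : ∀ g : N ≃ₐ[ℚ] N, AlgEquiv.restrictNormalHom N₁ g = rq N₁ M (rq M N g) := by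
      intro g
      ext x
      apply (algebraMap N₁ N).injective
      have h1 := rq_apply (E := N₁) (M := N) g x
      rw [h1]
      change g (algebraMap M N (algebraMap N₁ M x))
        = algebraMap M N (algebraMap N₁ M (rq N₁ M (rq M N g) x))
      rw [rq_apply, rq_apply]
    have hbN : Part l b (N₁ ≃ₐ[ℚ] N₁) := by
      have hfin2 : FiniteDimensional ℚ M := inferInstance
      refine (hb.map (rq M N) ?_).map (rq N₁ M) ?_
      · exact AlgEquiv.restrictNormalHom_surjective (F := ℚ) (K₁ := M) N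
      · exact AlgEquiv.restrictNormalHom_surjective (F := ℚ) (K₁ := N₁) M
    have h1 := odd_l hO hl N N₁ hN₁ (ε.comp (rq M N)) (by
      intro c hc
      obtain ⟨φ, hφ⟩ := CC_res (L := M) hc
      exact hεc φ _ hφ) Th (thl_mem hG1L hL1 hL3 hl hlL hst hA hB hnL hbN hχ)
    have h2 : (fun g : N ≃ₐ[ℚ] N => ((ε (rq M N g) : ℂˣ) : ℂ) * Th (rq N₁ M (rq M N g)))
        = (fun g => (((ε.comp (rq M N)) g : ℂˣ) : ℂ) * Th (AlgEquiv.restrictNormalHom N₁ g)) := by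
      funext g
      rw [hres]
      rfl
    rw [h2]
    exact h1
  -- the difference
  have hdif : (fun g : N ≃ₐ[ℚ] N => χ (rq L M (rq M N g)) - ((ε (rq M N g) : ℂˣ) : ℂ) *
      Th (rq N₁ M (rq M N g))) ∈ satl l hl (TT A (K := ℚ) (L := N) ⊥) := by
    simp only [hThN]
    refine hG1L (N ≃ₐ[ℚ] N) l hl b hb _ ?_ _ hcore
    intro g x
    simp only [conj_pow, map_mul, map_inv, hχc]
    rw [theta_class (χ := fun y => χ y - χ 1) hχ' hst hA hB, mul_comm (ε (rq M N x)),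
      mul_inv_cancel_right]
  have hsum : (fun g : N ≃ₐ[ℚ] N => χ (rq L M (rq M N g)))
      ∈ satl l hl (TT A (K := ℚ) (L := N) ⊥) := by
    have h1 := add_mem hdif hodd
    have h2 : ((fun g : N ≃ₐ[ℚ] N => χ (rq L M (rq M N g)) - ((ε (rq M N g) : ℂˣ) : ℂ) *
      Th (rq N₁ M (rq M N g))) + fun g : N ≃ₐ[ℚ] N => ((ε (rq M N g) : ℂˣ) : ℂ) *
      Th (rq N₁ M (rq M N g))) = fun g : N ≃ₐ[ℚ] N => χ (rq L M (rq M N g)) := by
      funext g
      simp only [Pi.add_apply]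
      ring
    rwa [h2] at h1
  obtain ⟨n, hn, v, hv, h6⟩ := hsum
  rw [Subgroup.mem_bot] at hv
  subst hv
  let _ : Algebra L N := ((algebraMap M N).comp (algebraMap L M)).toAlgebra
  have htow : IsScalarTower ℚ L N := inferInstance
  have hres : ∀ g : N ≃ₐ[ℚ] N, AlgEquiv.restrictNormalHom L g = rq L M (rq M N g) := by
    intro g
    ext x
    apply (algebraMap L N).injective
    have h1 := rq_apply (E := L) (M := N) g x
    rw [h1]
    change g (algebraMap M N (algebraMap L M x))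
      = algebraMap M N (algebraMap L M (rq L M (rq M N g) x))
    rw [rq_apply, rq_apply]
  have h7 : (fun g : N ≃ₐ[ℚ] N => χ (rq L M (rq M N g)))
      = fun g => χ (AlgEquiv.restrictNormalHom L g) := by
    funext g
    rw [hres]
  have h8 : IsChar (fun g : N ≃ₐ[ℚ] N => χ (AlgEquiv.restrictNormalHom L g)) :=
    Pool.Agent.K4H77.SL.IsChar.comp hχ _
  have h9 := Val.nsmul A (Val.of_char A h8) n
  rw [h7] at h6
  have h10 := h9.unique A h6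
  rw [A.val_infl ℚ L N χ hχ] at h10
  exact ⟨n, hn, h10⟩

end Pool.Agent.K4H34.NC
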