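import Mathlib
import Pool.Agent.K4H34.NC.Spec

/-! Pieces `StL0` and `StG1L` (by helper41). -/

set_option autoImplicit false
set_option linter.unusedSectionVars false

namespace Pool.Agent.K4H34.NC

open Pool.Agent.R389 Pool.Agent.K4H77.SL Pool.Agent.H302R2 Pool.Agent.H302R3

theorem l0 : StL0 := by
  intro G _ _ l hl
  set n := Nat.card G with hn
  have hn0 : n ≠ 0 := Nat.card_pos.ne'
  set e := n.factorization l with he
  set m := n / l ^ e with hm
  have hnm : l ^ e * m = n := Nat.ordProj_mul_ordCompl_eq_self n l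
  have hlm : Nat.Coprime l m := Nat.coprime_ordCompl hl hn0
  have hcop : Nat.Coprime (l ^ e) m := Nat.Coprime.pow_left e hlm
  obtain ⟨b, hb0, hb1⟩ := Nat.chineseRemainder hcop 0 1
  refine ⟨b, fun u => ⟨?_, e, ?_⟩⟩
  · have h1 : l ^ e ∣ b := (Nat.modEq_zero_iff_dvd).1 hb0
    have h2 : orderOf (u ^ b) ∣ m := by
      rw [orderOf_dvd_iff_pow_eq_one, ← pow_mul]
      have h3 : n ∣ b * m := by
        rw [← hnm]
        exact Nat.mul_dvd_mul_right h1 m
      exact orderOf_dvd_iff_pow_eq_one.1 ((orderOf_dvd_natCard u).trans h3)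
    exact Nat.Coprime.coprime_dvd_left h2 hlm.symm
  · have hcomm : Commute u (u ^ b)⁻¹ := ((Commute.refl u).pow_right b).inv_right
    rw [hcomm.mul_pow, inv_pow, ← pow_mul, mul_inv_eq_one, pow_eq_pow_iff_modEq]
    have h4 : b * l ^ e ≡ 1 * l ^ e [MOD m * l ^ e] := Nat.ModEq.mul_right' (l ^ e) hb1
    rw [one_mul, mul_comm m, hnm] at h4
    exact (h4.of_dvd (orderOf_dvd_natCard u)).symm

theorem g1l : StG1L := by
  classical
  intro G _ _ l hl b hb f hf S H
  obtain ⟨N, hN, hNf⟩ := class_solP (G := G) hl hf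
  have hfin : Finite (Subgroup G) := inferInstance
  have : Fintype (Subgroup G) := Fintype.ofFinite _
  have h1 : AddSubgroup.closure {u : G → ℂ | ∃ U : Subgroup G, HypP l U ∧
      u = ind U (fun h => f h)} ≤ satl l hl S := by
    rw [AddSubgroup.closure_le]
    rintro u ⟨U, hU, rfl⟩
    rw [SetLike.mem_coe]
    let T : Subgroup G → (U → ℂ) := fun Q =>
      if h : ∃ u : U, Subgroup.zpowers ((u : G) ^ b) = Q then
        genl b (((h.choose : U) : G) ^ b) f U else 0
    have h2 : (fun h : U => f h) = ∑ Q : Subgroup G, T Q := by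
      funext u
      rw [Finset.sum_apply, Finset.sum_eq_single (Subgroup.zpowers ((u : G) ^ b))]
      · have h : ∃ v : U, Subgroup.zpowers ((v : G) ^ b) = Subgroup.zpowers ((u : G) ^ b) :=
          ⟨u, rfl⟩
        simp only [T, dif_pos h, genl]
        rw [if_pos h.choose_spec.symm]
      · intro Q _ hQ
        simp only [T]
        by_cases h : ∃ v : U, Subgroup.zpowers ((v : G) ^ b) = Q
        · rw [dif_pos h]
          simp only [genl]
          rw [if_neg (fun h3 => hQ (h3.trans h.choose_spec).symm)]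
        · rw [dif_neg h]
          rfl
      · intro h
        exact absurd (Finset.mem_univ _) h
    rw [h2]
    have h3 : ind U (∑ Q : Subgroup G, T Q) = ∑ Q : Subgroup G, ind U (T Q) :=
      map_sum (indHom U) T Finset.univ
    rw [h3]
    refine sum_mem fun Q _ => ?_
    by_cases h : ∃ v : U, Subgroup.zpowers ((v : G) ^ b) = Q
    · have h4 : T Q = genl b (((h.choose : U) : G) ^ b) f U := by simp only [T, dif_pos h]
      rw [h4]
      exact H U hU _ (pow_mem h.choose.2 b) (hb _).1
    · have h4 : T Q = 0 := by simp only [T, dif_neg h]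
      rw [h4, ind_zero]
      exact zero_mem _
  obtain ⟨k, hk, hkS⟩ := h1 hNf
  refine ⟨k * N.natAbs, fun h => ?_, ?_⟩
  · rcases hl.dvd_mul.mp h with h2 | h2
    · exact hk h2
    · exact hN (Int.natCast_dvd.mpr h2)
  · rcases Int.natAbs_eq N with h2 | h2
    · have h3 : (k * N.natAbs) • f = k • (N • f) := by
        conv_rhs => rw [h2]
        rw [mul_smul, natCast_zsmul]
      rw [h3]
      exact hkS
    · have h3 : (k * N.natAbs) • f = - (k • (N • f)) := by
        conv_rhs => rw [h2]
        rw [mul_smul, neg_smul, natCast_zsmul, smul_neg, neg_neg]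
      rw [h3]
      exact neg_mem hkS

end Pool.Agent.K4H34.NC
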