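import Pool.Agent.K4H34.NC.Spec

/-!
# Piece L1: the `l`-local idempotents of an `l`-hyperelementary group (helper75)
-/

set_option autoImplicit false
set_option linter.unusedSectionVars false

namespace Pool.Agent.K4H34.NC

open NumberField NumberField.ComplexEmbedding Polynomial Pool.Agent.R389 Pool.Agent.K4H74.ST
  Pool.Agent.K4H77.SL Pool.Agent.H302R2 Pool.Agent.H302R3 Pool.Agent.K4H34.ST
open scoped Pointwise

namespace L1x

theorem fix_zero {U : Type} [Group U] [Finite U] {l : ℕ} {b : ℕ}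
    (hb : ∀ u : U, (orderOf (u ^ b)).Coprime l)
    (B : Subgroup U) [B.Normal] (P : Sylow l U) (u : U) (h : u ^ b ∉ B)
    (x : U ⧸ (B ⊔ (P : Subgroup U))) : u • x ≠ x := by
  intro hx
  obtain ⟨y, rfl⟩ := QuotientGroup.mk_surjective x
  have h1 : y⁻¹ * u * y ∈ B ⊔ (P : Subgroup U) := by
    have h0 : (QuotientGroup.mk y : U ⧸ (B ⊔ (P : Subgroup U))) = QuotientGroup.mk (u * y) := hx.symm
    rw [QuotientGroup.eq, ← mul_assoc] at h0
    exact h0
  have h2 : (y⁻¹ * u * y) ^ b ∈ B := by
    have h3 : (y⁻¹ * u * y) ^ b ∈ B ⊔ (P : Subgroup U) := pow_mem h1 b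
    have h4 : (QuotientGroup.mk' B) ((y⁻¹ * u * y) ^ b) ∈ (P : Subgroup U).map (QuotientGroup.mk' B) := by
      have h5 := Subgroup.mem_map_of_mem (QuotientGroup.mk' B) h3
      have h6 : B.map (QuotientGroup.mk' B) = ⊥ := by
        rw [Subgroup.map_eq_bot_iff, QuotientGroup.ker_mk']
      rwa [Subgroup.map_sup, h6, bot_sup_eq] at h5
    have h5 : IsPGroup l ((P : Subgroup U).map (QuotientGroup.mk' B)) := P.isPGroup'.map _
    obtain ⟨k, hk⟩ := h5 ⟨_, h4⟩
    have h6 : ((QuotientGroup.mk' B) ((y⁻¹ * u * y) ^ b)) ^ (l ^ k) = 1 := congrArg Subtype.val hk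
    have h7 := orderOf_dvd_of_pow_eq_one h6
    have h8 : orderOf ((QuotientGroup.mk' B) ((y⁻¹ * u * y) ^ b)) ∣ orderOf ((y⁻¹ * u * y) ^ b) :=
      orderOf_map_dvd _ _
    have h9 : (orderOf ((QuotientGroup.mk' B) ((y⁻¹ * u * y) ^ b))).Coprime (l ^ k) :=
      (Nat.Coprime.coprime_dvd_left h8 (hb _)).pow_right k
    have h10 := Nat.Coprime.eq_one_of_dvd h9 h7
    rw [orderOf_eq_one_iff] at h10
    exact (QuotientGroup.eq_one_iff _).1 h10
  apply h
  have h3 : (y⁻¹ * u * y) ^ b = y⁻¹ * u ^ b * y := by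
    have h4 := conj_pow (i := b) (a := y⁻¹) (b := u)
    rwa [inv_inv] at h4
  have h4 := (inferInstance : B.Normal).conj_mem _ h2 y
  rw [h3] at h4
  have h5 : y * (y⁻¹ * u ^ b * y) * y⁻¹ = u ^ b := by group
  rwa [h5] at h4

theorem fix_ne {U : Type} [Group U] [Finite U] {l : ℕ} (hl : l.Prime) {b : ℕ}
    (hb : ∀ u : U, ∃ k : ℕ, (u * (u ^ b)⁻¹) ^ (l ^ k) = 1)
    (B : Subgroup U) [B.Normal] (P : Sylow l U) (u : U) (h : u ^ b ∈ B) :
    ¬ l ∣ Nat.card {x : U ⧸ (B ⊔ (P : Subgroup U)) // u • x = x} := by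
  have : Fact l.Prime := ⟨hl⟩
  set w := u * (u ^ b)⁻¹ with hw
  have hwp : IsPGroup l (Subgroup.zpowers w) := by
    obtain ⟨k, hk⟩ := hb u
    rintro ⟨y, j, hy⟩
    refine ⟨k, Subtype.ext ?_⟩
    change y ^ (l ^ k) = 1
    have hy' : w ^ j = y := hy
    rw [← hy', ← zpow_natCast, ← zpow_mul, mul_comm, zpow_mul, zpow_natCast, hk, one_zpow]
  have hv : ∀ x : U ⧸ (B ⊔ (P : Subgroup U)), (u ^ b) • x = x := by
    intro x
    obtain ⟨y, rfl⟩ := QuotientGroup.mk_surjective x
    symm
    change (QuotientGroup.mk y : U ⧸ (B ⊔ (P : Subgroup U))) = QuotientGroup.mk (u ^ b * y)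
    rw [QuotientGroup.eq, ← mul_assoc]
    apply Subgroup.mem_sup_left
    have h4 := (inferInstance : B.Normal).conj_mem _ h y⁻¹
    rwa [inv_inv] at h4
  have huw : ∀ x : U ⧸ (B ⊔ (P : Subgroup U)), u • x = w • x := by
    intro x
    have h1 : u = w * u ^ b := by rw [hw]; group
    conv_lhs => rw [h1]
    rw [mul_smul, hv]
  have h1 := hwp.card_modEq_card_fixedPoints (U ⧸ (B ⊔ (P : Subgroup U)))
  have h2 : Nat.card {x : U ⧸ (B ⊔ (P : Subgroup U)) // u • x = x} =
      Nat.card (MulAction.fixedPoints (Subgroup.zpowers w) (U ⧸ (B ⊔ (P : Subgroup U)))) := by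
    refine Nat.card_congr (Equiv.subtypeEquivRight fun x => ?_)
    rw [MulAction.mem_fixedPoints]
    constructor
    · rintro hx ⟨m, j, hm⟩
      have hm' : w ^ j = m := hm
      change m • x = x
      rw [← hm']
      have h3 : w • x = x := by rw [← huw, hx]
      exact (MulAction.mem_stabilizer_iff.1 (Subgroup.zpow_mem (MulAction.stabilizer U x) (MulAction.mem_stabilizer_iff.2 h3) j))
    · intro hx
      rw [huw]
      exact hx ⟨w, Subgroup.mem_zpowers w⟩
  rw [h2]
  have h3 : ¬ l ∣ Nat.card (U ⧸ (B ⊔ (P : Subgroup U))) := by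
    rw [← Subgroup.index_eq_card]
    intro h4
    exact P.not_dvd_index (h4.trans (Subgroup.index_dvd_of_le le_sup_right))
  intro h4
  apply h3
  exact (Nat.modEq_zero_iff_dvd.1 (h1.trans (Nat.modEq_zero_iff_dvd.2 h4)))

/-- from an integral multiple prime to `l` to `satl` -/
theorem mem_satl_of_zsmul {V : Type} [AddCommGroup V] {l : ℕ} {hl : l.Prime} {S : AddSubgroup V} {f : V} {N : ℤ}
    (hN : ¬ (l : ℤ) ∣ N) (h : N • f ∈ S) : f ∈ satl l hl S := by
  refine ⟨N.natAbs, fun h' => hN (Int.natCast_dvd.2 h'), ?_⟩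
  rcases Int.natAbs_eq N with h1 | h1
  · rw [h1, natCast_zsmul] at h
    exact h
  · rw [h1, neg_smul, natCast_zsmul] at h
    exact neg_mem_iff.1 h

theorem le_satl {V : Type} [AddCommGroup V] {l : ℕ} {hl : l.Prime} {S : AddSubgroup V} {f : V}
    (h : f ∈ S) : f ∈ satl l hl S :=
  ⟨1, fun h' => hl.one_lt.ne' (Nat.dvd_one.mp h'), by rwa [one_smul]⟩

/-- the indicator function of the set of the `u` with `u ^ b ∈ B` -/
theorem ind_B {U : Type} [Group U] [Finite U] {l : ℕ} (hl : l.Prime) {b : ℕ} (hb : Part l b U)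
    (hU : HypP l U) (B : Subgroup U) [B.Normal] :
    (by classical exact (fun u : U => if u ^ b ∈ B then (1 : ℂ) else 0)) ∈ satl l hl (SolP U l) := by
  classical
  have : Fintype U := Fintype.ofFinite U
  have : Fact l.Prime := ⟨hl⟩
  obtain ⟨P⟩ : Nonempty (Sylow l U) := inferInstance
  set π : U → ℕ := fun u => Nat.card {x : U ⧸ (B ⊔ (P : Subgroup U)) // u • x = x} with hπ
  have hcount : HypPCount l π := by
    refine ⟨U ⧸ (B ⊔ (P : Subgroup U)), inferInstance, inferInstance, fun x => ?_, fun g => rfl⟩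
    exact HypP.of_injective (Subgroup.subtype _) (Subgroup.subtype_injective _) hU
  have h0 : ∀ u : U, u ^ b ∉ B → π u = 0 := by
    intro u hu
    have : IsEmpty {x : U ⧸ (B ⊔ (P : Subgroup U)) // u • x = x} :=
      ⟨fun x => fix_zero (fun v => (hb v).1) B P u hu x.1 x.2⟩
    exact Nat.card_of_isEmpty
  have h1 : ∀ u : U, u ^ b ∈ B → ¬ l ∣ π u := fun u hu => fix_ne hl (fun v => (hb v).2) B P u hu
  let Q : Polynomial ℤ := ∏ g ∈ Finset.univ.filter (fun g : U => g ^ b ∈ B), (Polynomial.X - Polynomial.C (π g : ℤ))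
  apply mem_satl_of_zsmul (N := Q.coeff 0)
  · rw [Polynomial.coeff_zero_eq_eval_zero, Polynomial.eval_prod]
    intro h
    obtain ⟨g, hg', hg⟩ := (Prime.dvd_finsetProd_iff (Nat.prime_iff_prime_int.mp hl) _).mp h
    simp only [Polynomial.eval_sub, Polynomial.eval_X, Polynomial.eval_C, zero_sub,
      dvd_neg] at hg
    exact h1 g (Finset.mem_filter.1 hg').2 (by exact_mod_cast hg)
  · have h2 : Q.coeff 0 • (fun u : U => if u ^ b ∈ B then (1 : ℂ) else 0)
        = - ∑ i ∈ Finset.range Q.natDegree, Q.coeff (i + 1) • (fun g => ((π g ^ (i + 1) : ℕ) : ℂ)) := by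
      funext x
      simp only [Pi.smul_apply, Pi.neg_apply, Finset.sum_apply, zsmul_eq_mul]
      by_cases hx : x ^ b ∈ B
      · have h2 : Q.eval (π x : ℤ) = 0 := by
          rw [Polynomial.eval_prod]
          exact Finset.prod_eq_zero (Finset.mem_filter.2 ⟨Finset.mem_univ x, hx⟩) (by simp)
        rw [Polynomial.eval_eq_sum_range, Finset.sum_range_succ'] at h2
        have h3 : Q.coeff 0 = - ∑ i ∈ Finset.range Q.natDegree, Q.coeff (i + 1) * (π x : ℤ) ^ (i + 1) := by
          rw [pow_zero, mul_one] at h2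
          linarith
        rw [if_pos hx, mul_one, h3]
        push_cast
        rfl
      · rw [if_neg hx, mul_zero, Finset.sum_eq_zero, neg_zero]
        intro i _
        simp [Pi.mul_apply, h0 x hx]
    rw [h2]
    exact neg_mem (sum_mem fun i _ => zsmul_mem (countP_mem (hcount.pow i)) _)

/-- the indicator function of the set of the `u` such that `u ^ b` generates `B` -/
theorem ind_gen {U : Type} [Group U] [Finite U] {l : ℕ} (hl : l.Prime) {b : ℕ} (hb : Part l b U)
    (hU : HypP l U) (c : U) (hn : ∀ u : U, u * c * u⁻¹ ∈ Subgroup.zpowers c) :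
    ∀ n : ℕ, ∀ B : Subgroup U, B ≤ Subgroup.zpowers c → Nat.card B = n →
      (by classical exact (fun u : U => if Subgroup.zpowers (u ^ b) = B then (1 : ℂ) else 0)) ∈
        satl l hl (SolP U l) := by
  classical
  have hfinS : Finite (Subgroup U) := inferInstance
  have : Fintype (Subgroup U) := Fintype.ofFinite _
  intro n
  induction n using Nat.strong_induction_on with
  | _ n ih =>
    intro B hBc hB
    have hBn : B.Normal := by
      refine ⟨fun x hx u => ?_⟩
      obtain ⟨j, hj⟩ := hBc hx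
      obtain ⟨i, hi⟩ := hn u
      have hj' : c ^ j = x := hj
      have hi' : c ^ i = u * c * u⁻¹ := hi
      have h1 : u * x * u⁻¹ = x ^ i := by
        rw [← hj', ← zpow_mul, mul_comm, zpow_mul, hi', conj_zpow]
      rw [h1]
      exact Subgroup.zpow_mem _ hx i
    have h3 : (fun u : U => if Subgroup.zpowers (u ^ b) = B then (1 : ℂ) else 0)
        = (fun u : U => if u ^ b ∈ B then (1 : ℂ) else 0)
          - ∑ B' ∈ Finset.univ.filter (fun B' : Subgroup U => B' < B),
            (fun u : U => if Subgroup.zpowers (u ^ b) = B' then (1 : ℂ) else 0) := by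
      funext u
      rw [Pi.sub_apply, Finset.sum_apply]
      rw [Finset.sum_ite_eq (Finset.univ.filter (fun B' : Subgroup U => B' < B))]
      simp only [Finset.mem_filter, Finset.mem_univ, true_and]
      rw [← Subgroup.zpowers_le]
      by_cases h4 : Subgroup.zpowers (u ^ b) = B
      · rw [if_pos h4, if_pos h4.le, if_neg (by rw [h4]; exact lt_irrefl _), sub_zero]
      · rw [if_neg h4]
        by_cases h5 : Subgroup.zpowers (u ^ b) ≤ B
        · rw [if_pos h5, if_pos (lt_of_le_of_ne h5 h4), sub_self]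
        · rw [if_neg h5, if_neg (fun h6 => h5 h6.le), sub_zero]
    rw [h3]
    refine sub_mem (ind_B hl hb hU B) (sum_mem fun B' hB' => ?_)
    have h4 : B' < B := (Finset.mem_filter.mp hB').2
    have h5 : Nat.card B' < n := by
      rw [← hB]
      exact Set.ncard_lt_ncard (by exact_mod_cast h4) (Set.toFinite _)
    exact ih _ h5 B' (h4.le.trans hBc) rfl

/-- restriction of `Part` to a subgroup -/
theorem part_sub {G : Type} [Group G] {l b : ℕ} (hb : Part l b G) (U : Subgroup G) : Part l b U := by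
  intro u
  obtain ⟨h1, k, h2⟩ := hb (u : G)
  refine ⟨?_, k, ?_⟩
  · rw [← Subgroup.orderOf_coe, Subgroup.coe_pow]
    exact h1
  · apply Subtype.ext
    push_cast
    exact h2

end L1x

open L1x in
theorem l1 : StL1 := by
  classical
  intro G _ _ l hl b hb U hU g hg hgo S F ζ hζ hF hS
  obtain ⟨c, hc, hn, hp⟩ := hU
  have hU' : HypP l U := ⟨c, hc, hn, hp⟩
  set g' : U := ⟨g, hg⟩ with hg'
  have hgc : Subgroup.zpowers g' ≤ Subgroup.zpowers c := by
    rw [Subgroup.zpowers_le]
    obtain ⟨k, hk⟩ := hp g'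
    have h1 : (orderOf g').Coprime (l ^ k) := by
      have h2 : orderOf g' = orderOf g := by rw [← Subgroup.orderOf_coe]
      rw [h2]
      exact hgo.pow_right k
    have h2 : g' ∈ Subgroup.zpowers (g' ^ (l ^ k)) := by
      obtain ⟨m, hm⟩ := exists_pow_eq_self_of_coprime h1.symm
      exact ⟨m, by simpa using hm⟩
    exact (Subgroup.zpowers_le.2 hk) h2
  have h1 := ind_gen hl (part_sub hb U) hU' c hn _ (Subgroup.zpowers g') hgc rfl
  obtain ⟨n, hn0, h2⟩ := h1
  refine ⟨n, hn0, ?_⟩
  let m : (U → ℂ) →+ (G → ℂ) := AddMonoidHom.mk' (fun ψ => ind U (fun u => ψ u * ζ u)) (fun x y => by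
    rw [← ind_add]
    congr 1
    funext u
    change (x u + y u) * ζ u = x u * ζ u + y u * ζ u
    ring)
  have h3 : SolP U l ≤ S.comap m := by
    rw [SolP, AddSubgroup.closure_le]
    rintro f ⟨V, _, rfl⟩
    rw [SetLike.mem_coe, AddSubgroup.mem_comap]
    have h4 : (fun u : U => ind V (fun _ => (1 : ℂ)) u * ζ u) = ind V (fun v => ζ (v : U)) := by
      funext u
      rw [← ind_mul V (fun _ => (1 : ℂ)) hζ u]
      simp only [one_mul]
    change ind U (fun u : U => ind V (fun _ => (1 : ℂ)) u * ζ u) ∈ S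
    rw [h4, ind_ind]
    have hV : V.map U.subtype ≤ U := by
      rintro x ⟨y, _, rfl⟩
      exact y.2
    have h5 : tr U V (fun v => ζ (v : U)) = fun v : V.map U.subtype => ζ ⟨(v : G), hV v.2⟩ := by
      funext v
      change ζ ((V.equivMapOfInjective U.subtype U.subtype_injective).symm v : U) = ζ ⟨(v : G), hV v.2⟩
      have h6 := (V.equivMapOfInjective U.subtype U.subtype_injective).apply_symm_apply v
      have h7 : ((V.equivMapOfInjective U.subtype U.subtype_injective).symm v : U) = ⟨(v : G), hV v.2⟩ := by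
        apply Subtype.ext
        have h8 : (((V.equivMapOfInjective U.subtype U.subtype_injective)
            ((V.equivMapOfInjective U.subtype U.subtype_injective).symm v) : V.map U.subtype) : G) = (v : G) := by
          rw [h6]
        rw [Subgroup.coe_equivMapOfInjective_apply] at h8
        exact h8
      rw [h7]
    rw [h5]
    exact hS _ hV
  have h4 := h3 h2
  rw [AddSubgroup.mem_comap, map_nsmul] at h4
  have h5 : m (fun u : U => if Subgroup.zpowers (u ^ b) = Subgroup.zpowers g' then (1 : ℂ) else 0) =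
      ind U (genl b g F U) := by
    change ind U (fun u : U => (if Subgroup.zpowers (u ^ b) = Subgroup.zpowers g' then (1 : ℂ) else 0) * ζ u) = _
    congr 1
    funext u
    have h6 : Subgroup.zpowers (u ^ b) = Subgroup.zpowers g' ↔
        Subgroup.zpowers ((u : G) ^ b) = Subgroup.zpowers g := by
      rw [← (Subgroup.map_injective U.subtype_injective).eq_iff, MonoidHom.map_zpowers, MonoidHom.map_zpowers]
      rfl
    unfold genl
    by_cases h7 : Subgroup.zpowers ((u : G) ^ b) = Subgroup.zpowers g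
    · rw [if_pos (h6.2 h7), if_pos h7, one_mul, hF u h7]
    · rw [if_neg (fun h8 => h7 (h6.1 h8)), if_neg h7, zero_mul]
  rw [h5] at h4
  exact h4

end Pool.Agent.K4H34.NC
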