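import Mathlib
import Pool.Agent.K4H34.NC.Spec

/-!
# L2: induction of characters of unramified split cyclic extensions
-/

set_option autoImplicit false
set_option linter.unusedSectionVars false

namespace Pool.Agent.K4H34.NC

open NumberField NumberField.ComplexEmbedding Polynomial Pool.Agent.R389 Pool.Agent.K4H74.ST
  Pool.Agent.K4H77.SL Pool.Agent.H302R2 Pool.Agent.H302R3 Pool.Agent.K4H34.ST
open scoped Pointwise

/-- inertia elements lift to inertia elements -/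
lemma lift_inertia {K E L : Type} [Field K] [NumberField K] [Field E] [NumberField E] [Field L]
    [NumberField L] [Algebra K E] [Algebra E L] [Algebra K L] [IsScalarTower K E L] [IsGalois K L]
    [IsGalois K E] {P : Ideal (𝓞 E)} (hP : P.IsMaximal) {g : E ≃ₐ[K] E} (hg : g ∈ inertia K P) :
    ∃ (h : L ≃ₐ[K] L) (Q : Ideal (𝓞 L)), AlgEquiv.restrictNormalHom E h = g ∧ Q.IsMaximal ∧
      Q.comap (algebraMap (𝓞 E) (𝓞 L)) = P ∧ h ∈ inertia K Q := by
  have iEL : IsGalois E L := IsGalois.tower_top_of_isGalois K E L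
  have hfin : FiniteDimensional E L := Module.Finite.of_restrictScalars_finite ℚ E L
  obtain ⟨h0, Q, hh0, hQ, hQP, hhQ⟩ := lift_decomp (N := L) hP (inertia_sub P hg)
  have hlies : Q.LiesOver P := ⟨hQP.symm⟩
  have hQp : Q.IsPrime := hQ.isPrime
  have hact : ∀ x : 𝓞 E, gi h0 (algebraMap (𝓞 E) (𝓞 L) x) = algebraMap (𝓞 E) (𝓞 L) (gi g x) := by
    intro x
    apply RingOfIntegers.ext
    change h0 (algebraMap E L (x : E)) = algebraMap E L (g (x : E))
    rw [← hh0]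
    exact (res_apply h0 (x : E)).symm
  let e : 𝓞 L ≃+* 𝓞 L := RingOfIntegers.mapRingEquiv (h0 : L ≃+* L)
  have he : ∀ x, e x = gi h0 x := fun x => by
    apply RingOfIntegers.ext
    rfl
  have hQe : Q = Q.map (e : 𝓞 L →+* 𝓞 L) := by
    apply le_antisymm
    · intro x hx
      have h1 : gi h0⁻¹ x ∈ Q := (decomp_inv hhQ x).mpr hx
      have h2 : e (gi h0⁻¹ x) = x := by
        rw [he, ← gi_mul, mul_inv_cancel, gi_one]
      rw [← h2]
      exact Ideal.mem_map_of_mem (e : 𝓞 L →+* 𝓞 L) h1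
    · rw [Ideal.map_le_iff_le_comap]
      intro x hx
      rw [Ideal.mem_comap]
      change e x ∈ Q
      rw [he]
      exact (hhQ x).mpr hx
  let f : (𝓞 L ⧸ Q) ≃+* (𝓞 L ⧸ Q) := Ideal.quotientEquiv Q Q e hQe
  have hf : ∀ x : 𝓞 L, f (Ideal.Quotient.mk Q x) = Ideal.Quotient.mk Q (gi h0 x) := by
    intro x
    rw [← he]
    rfl
  have hfa : ∀ y : 𝓞 E ⧸ P, f (algebraMap (𝓞 E ⧸ P) (𝓞 L ⧸ Q) y)
      = algebraMap (𝓞 E ⧸ P) (𝓞 L ⧸ Q) y := by
    intro y
    obtain ⟨x, rfl⟩ := Ideal.Quotient.mk_surjective y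
    have h1 : algebraMap (𝓞 E ⧸ P) (𝓞 L ⧸ Q) (Ideal.Quotient.mk P x)
        = Ideal.Quotient.mk Q (algebraMap (𝓞 E) (𝓞 L) x) := rfl
    rw [h1, hf, hact]
    rw [Ideal.Quotient.eq, ← map_sub, ← Ideal.mem_comap, hQP]
    exact hg x
  let f' : (𝓞 L ⧸ Q) ≃ₐ[𝓞 E ⧸ P] (𝓞 L ⧸ Q) := AlgEquiv.ofRingEquiv (f := f) hfa
  obtain ⟨τ, hτ⟩ := Ideal.Quotient.stabilizerHom_surjective (L ≃ₐ[E] L) P Q f'
  have hτ2 : ∀ x : 𝓞 L, gi h0 x - (τ.1 • x) ∈ Q := by
    intro x
    rw [← Ideal.Quotient.eq, ← hf]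
    have h1 := AlgEquiv.congr_fun hτ (Ideal.Quotient.mk Q x)
    exact h1.symm
  have hτst : ∀ x : 𝓞 L, (τ.1⁻¹ • x) ∈ Q ↔ x ∈ Q := by
    intro x
    have h1 : τ.1 • Q = Q := τ.2
    rw [← Ideal.mem_pointwise_smul_iff_inv_smul_mem, h1]
  have hin : ((τ.1⁻¹ : L ≃ₐ[E] L).restrictScalars K * h0) ∈ inertia K Q := by
    intro x
    have h1 : gi ((τ.1⁻¹ : L ≃ₐ[E] L).restrictScalars K * h0) x - x
        = τ.1⁻¹ • (gi h0 x - τ.1 • x) := by
      rw [smul_sub, inv_smul_smul, gi_mul]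
      rfl
    rw [h1, hτst]
    exact hτ2 x
  refine ⟨_, Q, ?_, hQ, hQP, hin⟩
  rw [map_mul, hh0]
  have h1 : AlgEquiv.restrictNormalHom E ((τ.1⁻¹ : L ≃ₐ[E] L).restrictScalars K) = 1 := by
    ext x
    apply (algebraMap E L).injective
    rw [res_apply]
    change (τ.1⁻¹ : L ≃ₐ[E] L) (algebraMap E L x) = algebraMap E L x
    exact (τ.1⁻¹ : L ≃ₐ[E] L).commutes x
  rw [h1, one_mul]

theorem l2 : StL2 := by
  classical
  intro Mg _ A m e hA N _ _ _ V hV hF Γ _ _ κ hcyc hexp hgood1 hgood2 ζ hζ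
  have hfin : FiniteDimensional ℚ N := inferInstance
  let F := IntermediateField.fixedField V
  let ε : V ≃* (N ≃ₐ[F] N) := IntermediateField.subgroupEquivAlgEquiv V
  have he : ∀ h : N ≃ₐ[F] N, (ε.symm h : N ≃ₐ[ℚ] N) = h.restrictScalars ℚ := by
    intro h
    obtain ⟨u, rfl⟩ := ε.surjective h
    rw [MulEquiv.symm_apply_apply]
    ext x
    rfl
  let ρ : (N ≃ₐ[F] N) →* Γ := κ.comp ε.symm.toMonoidHom
  have hind : ind V (fun u => ζ (κ u)) = indChar ℚ F N (fun g => ζ (ρ g)) :=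
    ind_fixed V _
  have hcharU : IsChar (fun g : N ≃ₐ[F] N => ζ (ρ g)) := IsChar.comp hζ ρ
  -- the field `E`
  let E : IntermediateField F N := IntermediateField.fixedField ρ.ker
  have hE : IsGalois F E := IsGalois.of_fixedField_normal_subgroup ρ.ker
  let π : (N ≃ₐ[F] N) →* (E ≃ₐ[F] E) := AlgEquiv.restrictNormalHom E
  have hπ : Function.Surjective π := AlgEquiv.restrictNormalHom_surjective N
  have hfinF : FiniteDimensional F N := Module.Finite.of_restrictScalars_finite ℚ F N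
  have hker : ∀ g : N ≃ₐ[F] N, π g = 1 ↔ ρ g = 1 := by
    intro g
    constructor
    · intro h
      have h1 : g ∈ E.fixingSubgroup := by
        rw [IntermediateField.mem_fixingSubgroup_iff]
        intro x hx
        have h2 := res_apply (L := E) g ⟨x, hx⟩
        change algebraMap E N (π g ⟨x, hx⟩) = _ at h2
        rw [h] at h2
        exact h2.symm
      rw [IntermediateField.fixingSubgroup_fixedField] at h1
      exact h1
    · intro h
      ext x
      have h2 := res_apply (L := E) g x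
      change algebraMap E N (π g x) = _ at h2
      change ((π g x : E) : N) = (x : N)
      exact h2.trans (x.2 ⟨g, h⟩)
  have hle : π.ker ≤ ρ.ker := fun g hg => (hker g).mp hg
  let ρ' : (E ≃ₐ[F] E) →* Γ := π.liftOfSurjective hπ ⟨ρ, hle⟩
  have hρ' : ∀ g, ρ' (π g) = ρ g := fun g => MonoidHom.liftOfRightInverse_comp_apply _ _ _ ⟨ρ, hle⟩ g
  have hinj : Function.Injective ρ' := by
    rw [injective_iff_map_eq_one]
    intro a ha
    obtain ⟨g, rfl⟩ := hπ a
    rw [hρ'] at ha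
    exact (hker g).mpr ha
  have hrange : ∀ a, ρ' a ∈ κ.range := by
    intro a
    obtain ⟨g, rfl⟩ := hπ a
    rw [hρ']
    exact ⟨ε.symm g, rfl⟩
  have hdec : ∀ (h : N ≃ₐ[F] N) (Q : Ideal (𝓞 N)), h ∈ decomp F Q →
      (ε.symm h : N ≃ₐ[ℚ] N) ∈ decomp ℚ Q := by
    intro h Q hh x
    have h1 : gi (ε.symm h : N ≃ₐ[ℚ] N) x = gi h x := by
      apply RingOfIntegers.ext
      rw [he]
      rfl
    rw [h1]
    exact hh x
  have hine : ∀ (h : N ≃ₐ[F] N) (Q : Ideal (𝓞 N)), h ∈ inertia F Q →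
      (ε.symm h : N ≃ₐ[ℚ] N) ∈ inertia ℚ Q := by
    intro h Q hh x
    have h1 : gi (ε.symm h : N ≃ₐ[ℚ] N) x = gi h x := by
      apply RingOfIntegers.ext
      rw [he]
      rfl
    rw [h1]
    exact hh x
  have hcycE : IsCyclic (E ≃ₐ[F] E) :=
    isCyclic_of_injective (ρ'.codRestrict κ.range hrange) (fun a b hab => by
      apply hinj
      exact congrArg Subtype.val hab)
  have hexpE : ∀ g : E ≃ₐ[F] E, g ^ e = 1 := by
    intro g
    apply hinj
    rw [map_pow, map_one]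
    exact hexp _ (hrange g)
  have hval : A.val F E (fun g => ζ (ρ' g)) = 1 := by
    refine hA F E hF hcycE hexpE ?_ ?_ _ (IsChar.comp hζ ρ')
    · intro P hP g hg
      obtain ⟨h, Q, hhg, hQ, hQP, hhQ⟩ := lift_inertia (L := N) hP hg
      have h1 : ρ h = 1 := hgood2 (ε.symm h) Q hQ (hine h Q hhQ)
      rw [← hhg]
      exact (hker h).mpr h1
    · intro P hP hm g hg
      obtain ⟨h, Q, hhg, hQ, hQP, hhQ⟩ := lift_decomp (N := N) hP hg
      have hmQ : (m : 𝓞 N) ∈ Q := by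
        have h1 : algebraMap (𝓞 E) (𝓞 N) (m : 𝓞 E) ∈ Q := by
          rw [← Ideal.mem_comap, hQP]
          exact hm
        rwa [map_natCast] at h1
      have h1 : ρ h = 1 := hgood1 (ε.symm h) Q hQ (hdec h Q hhQ) hmQ
      rw [← hhg]
      exact (hker h).mpr h1
  have hval2 : A.val F N (fun g => ζ (ρ g)) = 1 := by
    rw [← hval, ← A.val_infl F E N _ (IsChar.comp hζ ρ')]
    congr 1
    funext g
    rw [← hρ']
  have hval3 : A.val ℚ N (indChar ℚ F N (fun g => ζ (ρ g))) = 1 := by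
    rw [A.val_ind ℚ F N _ hcharU]
    exact hval2
  have hfinal : A.val ℚ N (ind V (fun u => ζ (κ u))) = 1 := by
    rw [hind]
    exact hval3
  have hch : IsChar (ind V (fun u => ζ (κ u))) :=
    IsChar.ind_hyper hV (IsChar.comp hζ κ)
  rw [mem_TT_char A hch, Subgroup.mem_bot]
  exact hfinal

end Pool.Agent.K4H34.NC
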