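import Mathlib
import Pool.Agent.K4H34.NC.Spec

/-!
# L3: the decomposition group of a prime of `L₀` acts on `L`
-/

set_option autoImplicit false
set_option linter.unusedSectionVars false

namespace Pool.Agent.K4H34.NC

open NumberField NumberField.ComplexEmbedding Polynomial Pool.Agent.R389 Pool.Agent.K4H74.ST
  Pool.Agent.K4H77.SL Pool.Agent.H302R2 Pool.Agent.H302R3 Pool.Agent.K4H34.ST
open scoped Pointwise

section lift

variable {L₀ N₁ M : Type} [Field L₀] [NumberField L₀]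
  [IsGalois ℚ L₀] [Field N₁] [NumberField N₁] [IsGalois ℚ N₁] [Field M] [NumberField M]
  [IsGalois ℚ M] [Algebra L₀ N₁] [Algebra N₁ M]

/-- a decomposition element at `Q ∩ L₀` lifts to a decomposition element at the given `Q` -/
lemma lift_at {Q : Ideal (𝓞 M)} (hQ : Q.IsMaximal) {d : L₀ ≃ₐ[ℚ] L₀}
    (hd : d ∈ decomp ℚ ((Q.comap (algebraMap (𝓞 N₁) (𝓞 M))).comap
      (algebraMap (𝓞 L₀) (𝓞 N₁)))) :
    ∃ σ : M ≃ₐ[ℚ] M, σ ∈ decomp ℚ Q ∧ rq L₀ N₁ (rq N₁ M σ) = d := by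
  classical
  let _ : Algebra L₀ M := ((algebraMap N₁ M).comp (algebraMap L₀ N₁)).toAlgebra
  have htow : IsScalarTower L₀ N₁ M := IsScalarTower.of_algebraMap_eq fun x => rfl
  have hgal : IsGalois L₀ M := IsGalois.tower_top_of_isGalois ℚ L₀ M
  have hcomp : algebraMap (𝓞 L₀) (𝓞 M) = (algebraMap (𝓞 N₁) (𝓞 M)).comp
      (algebraMap (𝓞 L₀) (𝓞 N₁)) := by
    apply RingHom.ext
    intro x
    apply RingOfIntegers.ext
    rfl
  have hrq : ∀ σ : M ≃ₐ[ℚ] M, rq L₀ N₁ (rq N₁ M σ) = rq L₀ M σ := by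
    intro σ
    ext x
    apply (algebraMap L₀ M).injective
    rw [rq_apply (E := L₀) (M := M)]
    change algebraMap N₁ M (algebraMap L₀ N₁ (rq L₀ N₁ (rq N₁ M σ) x)) = _
    rw [rq_apply, rq_apply]
    rfl
  rw [Ideal.comap_comap, ← hcomp] at hd
  let P := Q.comap (algebraMap (𝓞 L₀) (𝓞 M))
  have hPm : P.IsMaximal := comap_max (E := L₀) hQ
  have hfin : FiniteDimensional L₀ M := Module.Finite.of_restrictScalars_finite ℚ L₀ M
  obtain ⟨h0, hh0⟩ := AlgEquiv.restrictNormalHom_surjective (F := ℚ) (K₁ := L₀) M d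
  have hact : ∀ (h : M ≃ₐ[ℚ] M) (x : 𝓞 L₀), h • (algebraMap (𝓞 L₀) (𝓞 M) x)
      = algebraMap (𝓞 L₀) (𝓞 M) (gi (AlgEquiv.restrictNormalHom L₀ h) x) := by
    intro h x
    apply RingOfIntegers.ext
    change h (algebraMap L₀ M (x : L₀)) = algebraMap L₀ M (AlgEquiv.restrictNormalHom L₀ h (x : L₀))
    exact (res_apply h (x : L₀)).symm
  have hQp : Q.IsPrime := hQ.isPrime
  have hl1 : Q.LiesOver P := ⟨rfl⟩
  have hl2 : (h0 • Q).LiesOver P := by
    constructor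
    ext x
    rw [Ideal.under_def, Ideal.mem_comap (x := x) (K := h0 • Q),
      Ideal.mem_pointwise_smul_iff_inv_smul_mem, hact, map_inv, hh0]
    exact ((decomp_inv hd) x).symm
  have hp2 : (h0 • Q).IsPrime := inferInstance
  obtain ⟨τ, hτ⟩ := Ideal.exists_smul_eq_of_isGaloisGroup P (h0 • Q) Q (M ≃ₐ[L₀] M)
  refine ⟨τ.restrictScalars ℚ * h0, ?_, ?_⟩
  · intro x
    have h1 : gi (τ.restrictScalars ℚ * h0) x = τ • (h0 • x) := by
      apply RingOfIntegers.ext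
      rfl
    rw [h1]
    constructor
    · intro h2
      rw [← hτ, Ideal.smul_mem_pointwise_smul_iff, Ideal.smul_mem_pointwise_smul_iff] at h2
      exact h2
    · intro h2
      rw [← hτ, Ideal.smul_mem_pointwise_smul_iff, Ideal.smul_mem_pointwise_smul_iff]
      exact h2
  · rw [hrq, map_mul]
    change _ * AlgEquiv.restrictNormalHom L₀ h0 = d
    rw [hh0]
    have h1 : rq L₀ M (τ.restrictScalars ℚ) = 1 := by
      rw [rq_eq_one]
      intro x
      exact τ.commutes x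
    rw [h1, one_mul]

end lift

theorem l3 : StL3 := by
  classical
  intro L L₀ N₁ M _ _ _ _ _ _ _ _ _ _ _ _ _ _ _ s hA Q hQ hsQ U _ r hr
  have hwd : ∀ σ σ' : M ≃ₐ[ℚ] M, σ ∈ decomp ℚ Q → σ' ∈ decomp ℚ Q →
      rq L₀ N₁ (rq N₁ M σ) = rq L₀ N₁ (rq N₁ M σ') → rq L M σ = rq L M σ' := by
    intro σ σ' h1 h2 h3
    have h4 := hA (σ⁻¹ * σ') ⟨Q, hQ, hsQ, decomp_mul (decomp_inv h1) h2⟩ (by
      rw [map_mul, map_mul, map_inv, map_inv, h3, inv_mul_cancel])
    rw [map_mul, map_inv, inv_mul_eq_one] at h4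
    exact h4
  choose σ h1 h2 using fun u => lift_at (N₁ := N₁) hQ (hr u)
  refine ⟨MonoidHom.mk' (fun u => rq L M (σ u)) ?_, ?_⟩
  · intro u v
    rw [← map_mul]
    apply hwd _ _ (h1 _) (decomp_mul (h1 u) (h1 v))
    rw [h2, map_mul, map_mul, map_mul, h2, h2]
  · intro u τ hτ hu
    change rq L M (σ u) = rq L M τ
    exact hwd _ _ (h1 u) hτ ((h2 u).trans hu.symm)

end Pool.Agent.K4H34.NC
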