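import Mathlib
import Pool.Agent.K4H34.NC.Asm
import Pool.Agent.K4H34.NC.G1L
import Pool.Agent.K4H34.NC.L1
import Pool.Agent.K4H34.NC.L2
import Pool.Agent.K4H34.NC.L3
import Pool.Agent.K4H77.SL.Lin

/-!
# Inductive invariants of Artin characters and class group characters of totally complex fields,
with control of the exponents
-/

set_option autoImplicit false
set_option linter.unusedSectionVars false

namespace Pool.Agent.K4H34.NC

open NumberField NumberField.ComplexEmbedding Pool.Agent.R389 Pool.Agent.K4H74.ST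
  Pool.Agent.K4H77.SL Pool.Agent.K4H34.ST

/-- the invariant is trivial on the faithful linear characters of order dividing `e` of the
everywhere unramified extensions of totally complex fields in which the primes above `m` split
completely -/
def TrivSplitLinE {M : Type} [CommGroup M] (A : ArtinInvariant M) (m e : ℕ) : Prop :=
  ∀ (K L : Type) [Field K] [NumberField K] [Field L] [NumberField L] [Algebra K L] [IsGalois K L],
    IsTotallyComplex K →
    (∀ P : Ideal (𝓞 L), P.IsMaximal → ∀ g ∈ inertia K P, g = 1) →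
    (∀ P : Ideal (𝓞 L), P.IsMaximal → (m : 𝓞 L) ∈ P → ∀ g ∈ decomp K P, g = 1) →
    ∀ ψ : (L ≃ₐ[K] L) →* ℂˣ, Function.Injective ψ → ψ ^ e = 1 → A.val K L (lc ψ) = 1

theorem trivSplitE_of_lin {M : Type} [CommGroup M] {A : ArtinInvariant M} {m e : ℕ}
    (hA : TrivSplitLinE A m e) : TrivSplitE A m e := by
  intro K L _ _ _ _ _ _ hK hcyc hexp hin hde χ hχ
  have hfinL : FiniteDimensional K L := Module.Finite.of_restrictScalars_finite ℚ K L
  have key : A.val K L χ ∈ (⊥ : Subgroup M) := by
    refine brauer_red ⊥ (fun U ψ => ?_) hχ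
    rw [Subgroup.mem_bot]
    let F := IntermediateField.fixedField U
    obtain ⟨E, i1, i2, i3, i4, i5, i6, θ, hθ, hψ⟩ := lin_red F L ψ
    have h1 : ψ = θ.comp (AlgEquiv.restrictNormalHom E) := by
      ext g
      rw [← hψ]
      rfl
    have hF : IsTotallyComplex F := by
      have h3 : ∀ v : InfinitePlace F, v.IsComplex := by
        intro v
        rw [← InfinitePlace.not_isReal_iff_isComplex]
        intro hv
        have h4 : (v.comap (algebraMap K F)).IsReal := InfinitePlace.IsReal.comap _ hv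
        exact InfinitePlace.not_isReal_iff_isComplex.mpr (hK.isComplex _) h4
      exact ⟨h3⟩
    have hinF : ∀ P : Ideal (𝓞 L), P.IsMaximal → ∀ g ∈ inertia F P, g = 1 := by
      intro P hP g hg
      have h3 : g.restrictScalars K ∈ inertia K P := by
        intro x
        exact hg x
      have h4 := hin P hP _ h3
      ext x
      exact AlgEquiv.congr_fun h4 x
    have hdeF : ∀ P : Ideal (𝓞 L), P.IsMaximal → (m : 𝓞 L) ∈ P → ∀ g ∈ decomp F P, g = 1 := by
      intro P hP hm g hg
      have h3 : g.restrictScalars K ∈ decomp K P := by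
        intro x
        exact hg x
      have h4 := hde P hP hm _ h3
      ext x
      exact AlgEquiv.congr_fun h4 x
    have hfin : FiniteDimensional F E := Module.Finite.of_restrictScalars_finite ℚ F E
    have hfinF : FiniteDimensional F L := Module.Finite.of_restrictScalars_finite ℚ F L
    have hθe : θ ^ e = 1 := by
      apply MonoidHom.ext
      intro y
      obtain ⟨g, rfl⟩ := AlgEquiv.restrictNormalHom_surjective (F := F) (K₁ := E) L y
      have h5 : g ^ e = 1 := by
        have h6 := hexp (g.restrictScalars K)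
        ext x
        have h7 : ∀ n : ℕ, (g ^ n) x = ((g.restrictScalars K) ^ n) x := by
          intro n
          induction n generalizing x with
          | zero => rfl
          | succ n ih =>
            rw [pow_succ, pow_succ]
            exact ih (g x)
        rw [h7, h6]
        rfl
      rw [MonoidHom.pow_apply, ← map_pow, ← map_pow, h5, map_one, map_one]
      rfl
    rw [h1, val_lin_res]
    exact hA F E hF (unram_sub hinF) (split_sub hdeF) θ hθ hθe
  exact (Subgroup.mem_bot.mp key)

variable {Mg : Type} [CommGroup Mg] {A : ArtinInvariant Mg}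

/-- **The main theorem at one prime.** -/
theorem main_l {m : ℕ} (hm : m ≠ 0) (hR : TrivOne A) (hO : TrivOdd A) (K L : Type) [Field K]
    [NumberField K] [Field L] [NumberField L] [Algebra K L] [IsGalois K L] (N : Type) [Field N]
    [NumberField N] [IsGalois ℚ N] [Algebra L N] {e : ℕ} (heN : ∀ y : N ≃ₐ[ℚ] N, y ^ e = 1)
    (hTS : TrivSplitLinE A m (2 * e)) {l : ℕ} (hl : l.Prime)
    (hlN : ¬ l ∣ 2 * Module.finrank ℚ N) {χ : (L ≃ₐ[K] L) → ℂ} (hχ : IsChar χ) :
    ∃ n : ℕ, ¬ l ∣ n ∧ A.val K L χ ^ n = 1 := by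
  let _ : Algebra K N := ((algebraMap L N).comp (algebraMap K L)).toAlgebra
  have htow : IsScalarTower K L N := IsScalarTower.of_algebraMap_eq fun x => rfl
  have htow2 : IsScalarTower ℚ K N := inferInstance
  have hgal : IsGalois K N := IsGalois.tower_top_of_isGalois ℚ K N
  have h8 : IsChar (fun g : N ≃ₐ[K] N => χ (AlgEquiv.restrictNormalHom L g)) :=
    Pool.Agent.K4H77.SL.IsChar.comp hχ _
  rw [← A.val_infl K L N χ hχ, ← A.val_ind ℚ K N _ h8]
  exact main_rat_l l0 g1l l1 l2 l3 hm hR hO N heN (trivSplitE_of_lin hTS) hl hlN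
    (Pool.Agent.K4H74.SC.isChar_indChar h8)

/-- **The main theorem.** -/
theorem main_order {m : ℕ} (hm : m ≠ 0) (hR : TrivOne A) (hO : TrivOdd A) (K L : Type) [Field K]
    [NumberField K] [Field L] [NumberField L] [Algebra K L] [IsGalois K L] (N : Type) [Field N]
    [NumberField N] [IsGalois ℚ N] [Algebra L N] {e : ℕ} (heN : ∀ y : N ≃ₐ[ℚ] N, y ^ e = 1)
    (hTS : TrivSplitLinE A m (2 * e)) {χ : (L ≃ₐ[K] L) → ℂ} (hχ : IsChar χ) :
    ∃ n : ℕ, 0 < n ∧ (∀ p : ℕ, p.Prime → p ∣ n → p ∣ 2 * Module.finrank ℚ N) ∧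
      A.val K L χ ^ n = 1 := by
  have hfin : IsOfFinOrder (A.val K L χ) := by
    obtain ⟨p, hp1, hp⟩ := Nat.exists_infinite_primes (2 * Module.finrank ℚ N + 1)
    have hpN : ¬ p ∣ 2 * Module.finrank ℚ N := by
      intro h
      have h2 := Nat.le_of_dvd (Nat.mul_pos two_pos Module.finrank_pos) h
      omega
    obtain ⟨n, hn, h1⟩ := main_l hm hR hO K L N heN hTS hp hpN hχ
    exact isOfFinOrder_iff_pow_eq_one.mpr ⟨n, Nat.pos_of_ne_zero (fun h => hn (h ▸ dvd_zero p)), h1⟩
  refine ⟨orderOf (A.val K L χ), hfin.orderOf_pos, fun p hp hpd => ?_, pow_orderOf_eq_one _⟩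
  by_contra hpN
  obtain ⟨n, hn, h1⟩ := main_l hm hR hO K L N heN hTS hp hpN hχ
  exact hn (hpd.trans (orderOf_dvd_of_pow_eq_one h1))

end Pool.Agent.K4H34.NC
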